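import Mathlib

/-!
# Random maximal chains and rooted families

Numberings of a finite set `V` (Katona's method), the number of members of a family on a random
maximal chain, and the estimate for families with roots.
-/

set_option autoImplicit false
set_option linter.unusedSectionVars false

namespace Pool.Agent.N363.UC

open Finset Numbering

variable {V : Type*} [Fintype V] [DecidableEq V]

/-- The first `k` elements of a numbering. -/
def pre (f : Numbering V) (k : ℕ) : Finset V := univ.filter (fun x => (f x : ℕ) < k)

@[simp] theorem mem_pre {f : Numbering V} {k : ℕ} {x : V} : x ∈ pre f k ↔ (f x : ℕ) < k := by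
  simp [pre]

theorem card_pre (f : Numbering V) {k : ℕ} (hk : k ≤ Fintype.card V) : (pre f k).card = k := by
  have h1 : (pre f k).map f.toEmbedding = univ.filter (fun i : Fin (Fintype.card V) => (i : ℕ) < k) := by
    ext i
    simp only [mem_map, mem_pre, Equiv.coe_toEmbedding, mem_filter, mem_univ, true_and]
    constructor
    · rintro ⟨x, hx, rfl⟩; exact hx
    · intro hi; exact ⟨f.symm i, by simpa using hi, by simp⟩
  have h2 := congrArg Finset.card h1
  rw [card_map, Fin.card_filter_val_lt] at h2
  rw [h2]; exact min_eq_right hk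

theorem mem_prefixed_iff {f : Numbering V} {S : Finset V} : f ∈ prefixed S ↔ S = pre f S.card := by
  rw [mem_prefixed]
  constructor
  · intro h; ext x; rw [mem_pre]; exact h x
  · intro h x
    conv_lhs => rw [h]
    exact mem_pre

theorem pre_mono {f : Numbering V} {j k : ℕ} (h : j ≤ k) : pre f j ⊆ pre f k := by
  intro x hx; rw [mem_pre] at *; omega

theorem mem_prefixed_pre (f : Numbering V) {k : ℕ} (hk : k ≤ Fintype.card V) :
    f ∈ prefixed (pre f k) := by
  rw [mem_prefixed_iff, card_pre f hk]

/-- Moving a numbering by a permutation of `V`. -/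
def move (σ : Equiv.Perm V) : Numbering V ≃ Numbering V := Equiv.equivCongr σ (Equiv.refl _)

theorem move_apply (σ : Equiv.Perm V) (f : Numbering V) (x : V) : move σ f x = f (σ.symm x) := by
  simp [move]

theorem move_prefixed (σ : Equiv.Perm V) (f : Numbering V) (S : Finset V) :
    move σ f ∈ prefixed (S.map σ.toEmbedding) ↔ f ∈ prefixed S := by
  rw [mem_prefixed, mem_prefixed]
  unfold IsPrefix
  constructor
  · intro h x
    have := h (σ x)
    simpa [move_apply] using this
  · intro h x
    have := h (σ.symm x)
    rw [move_apply, card_map, ← this]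
    simp [mem_map_equiv]

theorem card_prefixed_inter_map (σ : Equiv.Perm V) (S T : Finset V) :
    (prefixed (S.map σ.toEmbedding) ∩ prefixed (T.map σ.toEmbedding)).card =
      (prefixed S ∩ prefixed T).card := by
  symm
  apply Finset.card_bij (fun f _ => move σ f)
  · intro f hf
    rw [mem_inter] at *
    exact ⟨(move_prefixed σ f S).2 hf.1, (move_prefixed σ f T).2 hf.2⟩
  · intro f _ f' _ h
    exact (move σ).injective h
  · intro f hf
    refine ⟨(move σ).symm f, ?_, by simp⟩
    rw [mem_inter] at *
    refine ⟨(move_prefixed σ _ S).1 (by simpa using hf.1), (move_prefixed σ _ T).1 (by simpa using hf.2)⟩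

/-- The numberings with prefix `g` for which `x` is not among the first `j` elements. -/
def late (g : Finset V) (x : V) (j : ℕ) : Finset (Numbering V) :=
  (prefixed g).filter (fun f => ¬ ((f x : ℕ) < j))

theorem card_late_eq {g : Finset V} {x y : V} (hx : x ∈ g) (hy : y ∈ g) (j : ℕ) :
    (late g x j).card = (late g y j).card := by
  have hg : g.map (Equiv.swap x y).toEmbedding = g := by
    ext z
    rw [mem_map_equiv]
    rw [Equiv.symm_swap]
    by_cases hzx : z = x
    · subst hzx; simp [hx, hy]
    · by_cases hzy : z = y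
      · subst hzy; simp [hx, hy]
      · rw [Equiv.swap_apply_of_ne_of_ne hzx hzy]
  apply Finset.card_bij (fun f _ => move (Equiv.swap x y) f)
  · intro f hf
    rw [late, mem_filter] at *
    refine ⟨?_, ?_⟩
    · have := (move_prefixed (Equiv.swap x y) f g).2 hf.1
      rwa [hg] at this
    · rw [move_apply]; simpa using hf.2
  · intro f _ f' _ h
    exact (move _).injective h
  · intro f hf
    have hf' := hf
    rw [late, mem_filter] at hf'
    refine ⟨(move (Equiv.swap x y)).symm f, ?_, by simp⟩
    rw [late, mem_filter]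
    refine ⟨?_, ?_⟩
    · apply (move_prefixed (Equiv.swap x y) _ g).1
      rw [hg]; simpa using hf'.1
    · have h1 : move (Equiv.swap x y) ((move (Equiv.swap x y)).symm f) y = f y := by simp
      rw [move_apply] at h1
      simp only [Equiv.symm_swap, Equiv.swap_apply_right] at h1
      rw [h1]; exact hf'.2

theorem card_late {g : Finset V} {x : V} (hx : x ∈ g) (j : ℕ) :
    g.card * (late g x j).card = (g.card - j) * (prefixed g).card := by
  have h1 : ∑ y ∈ g, (late g y j).card = g.card * (late g x j).card := by
    rw [Finset.sum_congr rfl (fun y hy => card_late_eq hy hx j), sum_const, smul_eq_mul]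
  have h2 : ∑ y ∈ g, (late g y j).card =
      ∑ f ∈ prefixed g, (g.filter (fun y => ¬ ((f y : ℕ) < j))).card := by
    simp only [late, card_filter]
    rw [sum_comm]
  have h3 : ∀ f ∈ prefixed g, (g.filter (fun y => ¬ ((f y : ℕ) < j))).card = g.card - j := by
    intro f hf
    by_cases hj : j ≤ g.card
    · have hsub : pre f j ⊆ g := by
        have := mem_prefixed_iff.1 hf
        rw [this]; exact pre_mono hj
      have : g.filter (fun y => ¬ ((f y : ℕ) < j)) = g \ pre f j := by
        ext y; simp [mem_sdiff]
      rw [this, card_sdiff_of_subset hsub, card_pre f (hj.trans (card_le_univ g))]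
    · push Not at hj
      rw [Nat.sub_eq_zero_of_le hj.le, card_eq_zero, filter_eq_empty_iff]
      intro y hy
      have := (mem_prefixed.1 hf y).1 hy
      simp only [not_not]; omega
  rw [← h1, h2, Finset.sum_congr rfl h3, sum_const, smul_eq_mul, mul_comm]

theorem prefixed_subset_of_lt {f : Numbering V} {S T : Finset V} (hS : f ∈ prefixed S)
    (hT : f ∈ prefixed T) (h : S.card ≤ T.card) : S ⊆ T := by
  rw [mem_prefixed_iff.1 hS, mem_prefixed_iff.1 hT]; exact pre_mono h

theorem prefixed_eq_of_card {f : Numbering V} {S T : Finset V} (hS : f ∈ prefixed S)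
    (hT : f ∈ prefixed T) (h : S.card = T.card) : S = T := by
  rw [mem_prefixed_iff.1 hS, mem_prefixed_iff.1 hT, h]

/-- A nonempty proper subset of `g` is on the chain together with `g` with conditional probability
at most `1 / |g|`. -/
theorem card_inter_le {g S : Finset V} (hSg : S ⊂ g) (hne : S.Nonempty) :
    g.card * (prefixed g ∩ prefixed S).card ≤ (prefixed g).card := by
  classical
  obtain ⟨a, ha⟩ := hne
  obtain ⟨b, hbg, hbS⟩ := exists_of_ssubset hSg
  have hag : a ∈ g := hSg.1 ha
  -- the permutation attached to `z`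
  let σ : V → Equiv.Perm V := fun z => if z ∈ S then (if z = a then Equiv.refl V else Equiv.swap z b)
    else Equiv.swap a z
  let F : V → Finset V := fun z => S.map (σ z).toEmbedding
  have hgmap : ∀ z ∈ g, g.map (σ z).toEmbedding = g := by
    intro z hz
    have key : ∀ u v : V, u ∈ g → v ∈ g → g.map (Equiv.swap u v).toEmbedding = g := by
      intro u v hu hv
      ext w
      rw [mem_map_equiv, Equiv.symm_swap]
      by_cases hwu : w = u
      · subst hwu; simp [hu, hv]
      · by_cases hwv : w = v
        · subst hwv; simp [hu, hv]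
        · rw [Equiv.swap_apply_of_ne_of_ne hwu hwv]
    simp only [σ]
    split_ifs with h1 h2
    · ext w; simp
    · exact key _ _ hz hbg
    · exact key _ _ hag hz
  have hcard : ∀ z ∈ g, (prefixed g ∩ prefixed (F z)).card = (prefixed g ∩ prefixed S).card := by
    intro z hz
    have := card_prefixed_inter_map (σ z) g S
    rw [hgmap z hz] at this
    exact this
  have hFa : F a = S := by simp [F, σ, ha]
  have memF : ∀ z, ∀ w, w ∈ F z ↔ (σ z).symm w ∈ S := by
    intro z w; simp only [F, mem_map_equiv]
  have hinj : ∀ z ∈ g, ∀ z' ∈ g, F z = F z' → z = z' := by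
    -- describe F z
    have d1 : ∀ z ∈ S, z ≠ a → z ∉ F z ∧ b ∈ F z ∧ ∀ w, w ≠ z → w ≠ b → (w ∈ F z ↔ w ∈ S) := by
      intro z hz hza
      have hs : σ z = Equiv.swap z b := by simp [σ, hz, hza]
      refine ⟨?_, ?_, ?_⟩
      · rw [memF, hs, Equiv.symm_swap, Equiv.swap_apply_left]; exact hbS
      · rw [memF, hs, Equiv.symm_swap, Equiv.swap_apply_right]; exact hz
      · intro w h1 h2
        rw [memF, hs, Equiv.symm_swap, Equiv.swap_apply_of_ne_of_ne h1 h2]
    have d2 : ∀ z, z ∉ S → z ∈ F z ∧ a ∉ F z ∧ ∀ w, w ≠ a → w ≠ z → (w ∈ F z ↔ w ∈ S) := by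
      intro z hz
      have hs : σ z = Equiv.swap a z := by simp [σ, hz]
      refine ⟨?_, ?_, ?_⟩
      · rw [memF, hs, Equiv.symm_swap, Equiv.swap_apply_right]; exact ha
      · rw [memF, hs, Equiv.symm_swap, Equiv.swap_apply_left]; exact hz
      · intro w h1 h2
        rw [memF, hs, Equiv.symm_swap, Equiv.swap_apply_of_ne_of_ne h1 h2]
    have e1 : ∀ z ∈ S, z ≠ a → a ∈ F z := by
      intro z hz hza
      exact ((d1 z hz hza).2.2 a (Ne.symm hza) (fun h => hbS (h ▸ ha))).2 ha
    intro z _ z' _ h
    by_cases hz : z ∈ S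
    · by_cases hz' : z' ∈ S
      · by_cases hza : z = a
        · by_cases hza' : z' = a
          · rw [hza, hza']
          · exfalso
            have := (d1 z' hz' hza').1
            rw [← h, hza, hFa] at this
            exact this hz'
        · by_cases hza' : z' = a
          · exfalso
            have := (d1 z hz hza).1
            rw [h, hza', hFa] at this
            exact this hz
          · by_contra hne
            have h1 := (d1 z hz hza).1
            have h2 := ((d1 z' hz' hza').2.2 z hne (fun h => hbS (h ▸ hz))).2 hz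
            rw [← h] at h2
            exact h1 h2
      · exfalso
        have h1 := (d2 z' hz').2.1
        rw [← h] at h1
        by_cases hza : z = a
        · rw [hza, hFa] at h1; exact h1 ha
        · exact h1 (e1 z hz hza)
    · by_cases hz' : z' ∈ S
      · exfalso
        have h1 := (d2 z hz).2.1
        rw [h] at h1
        by_cases hza : z' = a
        · rw [hza, hFa] at h1; exact h1 ha
        · exact h1 (e1 z' hz' hza)
      · by_contra hne
        have h1 := (d2 z hz).1
        rw [h] at h1
        have hzna : z ≠ a := fun h => hz (h ▸ ha)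
        exact hz (((d2 z' hz').2.2 z hzna hne).1 h1)
  have hFcard : ∀ z, (F z).card = S.card := by intro z; simp [F]
  have hsum : ∑ z ∈ g, (prefixed g ∩ prefixed (F z)).card ≤ (prefixed g).card := by
    rw [← card_biUnion]
    · apply card_le_card
      intro f hf
      rw [mem_biUnion] at hf
      obtain ⟨z, _, hz⟩ := hf
      exact (mem_inter.1 hz).1
    · intro z hz z' hz' hne
      rw [Function.onFun, Finset.disjoint_left]
      intro f hf hf'
      apply hne
      apply hinj z hz z' hz'
      exact prefixed_eq_of_card (mem_inter.1 hf).2 (mem_inter.1 hf').2 (by rw [hFcard, hFcard])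
  calc g.card * (prefixed g ∩ prefixed S).card = ∑ z ∈ g, (prefixed g ∩ prefixed (F z)).card := by
        rw [Finset.sum_congr rfl hcard, sum_const, smul_eq_mul]
    _ ≤ _ := hsum

/-- The number of pairs of a member of `U` and a numbering with this prefix. -/
def mass (U : Finset (Finset V)) : ℕ := ∑ g ∈ U, (prefixed g).card

/-- The numberings with a prefix in `U`. -/
def hits (U : Finset (Finset V)) : Finset (Numbering V) :=
  univ.filter (fun f => ∃ g ∈ U, f ∈ prefixed g)

/-- The number of pairs of a member `g` of `U` and a numbering with prefix `g` and a shorter prefix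
in `U`. -/
def multi (U : Finset (Finset V)) : ℕ :=
  ∑ g ∈ U, ((prefixed g).filter (fun f => ∃ S ∈ U, S ⊂ g ∧ f ∈ prefixed S)).card

theorem mass_le (U : Finset (Finset V)) : mass U ≤ (hits U).card + multi U := by
  have h1 : mass U = multi U +
      ∑ g ∈ U, ((prefixed g).filter (fun f => ¬ ∃ S ∈ U, S ⊂ g ∧ f ∈ prefixed S)).card := by
    rw [mass, multi, ← sum_add_distrib]
    apply sum_congr rfl
    intro g _
    rw [card_filter_add_card_filter_not]
  have h2 : ∑ g ∈ U, ((prefixed g).filter (fun f => ¬ ∃ S ∈ U, S ⊂ g ∧ f ∈ prefixed S)).card ≤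
      (hits U).card := by
    rw [← card_biUnion]
    · apply card_le_card
      intro f hf
      rw [mem_biUnion] at hf
      obtain ⟨g, hg, hf⟩ := hf
      rw [hits, mem_filter]
      exact ⟨mem_univ _, g, hg, (mem_filter.1 hf).1⟩
    · intro g hg g' hg' hne
      rw [Function.onFun, Finset.disjoint_left]
      intro f hf hf'
      rw [mem_filter] at hf hf'
      rcases le_total g.card g'.card with h | h
      · have hs := prefixed_subset_of_lt hf.1 hf'.1 h
        exact hf'.2 ⟨g, hg, Finset.ssubset_iff_subset_ne.2 ⟨hs, hne⟩, hf.1⟩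
      · have hs := prefixed_subset_of_lt hf'.1 hf.1 h
        exact hf.2 ⟨g', hg', Finset.ssubset_iff_subset_ne.2 ⟨hs, hne.symm⟩, hf'.1⟩
  omega

theorem multi_mono {U U' : Finset (Finset V)} (h : U' ⊆ U) : multi U' ≤ multi U := by
  unfold multi
  calc _ ≤ ∑ g ∈ U', ((prefixed g).filter (fun f => ∃ S ∈ U, S ⊂ g ∧ f ∈ prefixed S)).card := by
        apply sum_le_sum
        intro g _
        apply card_le_card
        intro f hf
        rw [mem_filter] at *
        obtain ⟨h1, S, hS, h2⟩ := hf
        exact ⟨h1, S, h hS, h2⟩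
    _ ≤ _ := sum_le_sum_of_subset h

theorem mass_mono {U U' : Finset (Finset V)} (h : U' ⊆ U) : mass U' ≤ mass U :=
  sum_le_sum_of_subset h

/-- The main estimate: if every member `g` of `U` has an element `x` that lies in few smaller members
of `U` contained in `g`, few numberings have two prefixes in `U`. -/
theorem multi_le {U : Finset (Finset V)} {lo β : ℕ} {τ : ℝ} (hlo : ∀ g ∈ U, lo ≤ g.card)
    (hroot : ∀ g ∈ U, ∃ x ∈ g, (U.filter (fun S => x ∈ S ∧ S ⊂ g)).card ≤ β)
    (hτ : ∀ g ∈ U, (((g.card - lo : ℕ) : ℝ) + β) ≤ τ * g.card) :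
    (multi U : ℝ) ≤ τ * mass U := by
  rw [multi, mass]
  push_cast
  rw [mul_sum]
  apply sum_le_sum
  intro g hg
  obtain ⟨x, hx, hβ⟩ := hroot g hg
  have hgpos : 0 < g.card := card_pos.2 ⟨x, hx⟩
  have hsub : (prefixed g).filter (fun f => ∃ S ∈ U, S ⊂ g ∧ f ∈ prefixed S) ⊆
      late g x lo ∪ (U.filter (fun S => x ∈ S ∧ S ⊂ g)).biUnion
        (fun S => prefixed g ∩ prefixed S) := by
    intro f hf
    rw [mem_filter] at hf
    obtain ⟨hf, S, hSU, hSg, hfS⟩ := hf
    rw [mem_union]
    by_cases hxlo : (f x : ℕ) < lo
    · right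
      rw [mem_biUnion]
      refine ⟨S, ?_, mem_inter.2 ⟨hf, hfS⟩⟩
      rw [mem_filter]
      refine ⟨hSU, ?_, hSg⟩
      rw [mem_prefixed_iff.1 hfS, mem_pre]
      have := hlo S hSU
      omega
    · left
      rw [late, mem_filter]; exact ⟨hf, hxlo⟩
  have h1 := card_late hx lo
  have h2 : g.card * ((U.filter (fun S => x ∈ S ∧ S ⊂ g)).biUnion
        (fun S => prefixed g ∩ prefixed S)).card ≤ β * (prefixed g).card := by
    calc _ ≤ g.card * ∑ S ∈ U.filter (fun S => x ∈ S ∧ S ⊂ g), (prefixed g ∩ prefixed S).card :=
          Nat.mul_le_mul_left _ card_biUnion_le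
      _ = ∑ S ∈ U.filter (fun S => x ∈ S ∧ S ⊂ g), g.card * (prefixed g ∩ prefixed S).card := by
          rw [mul_sum]
      _ ≤ ∑ S ∈ U.filter (fun S => x ∈ S ∧ S ⊂ g), (prefixed g).card := by
          apply sum_le_sum
          intro S hS
          rw [mem_filter] at hS
          exact card_inter_le hS.2.2 ⟨x, hS.2.1⟩
      _ = (U.filter (fun S => x ∈ S ∧ S ⊂ g)).card * (prefixed g).card := by
          rw [sum_const, smul_eq_mul]
      _ ≤ _ := Nat.mul_le_mul_right _ hβ
  have h3 : g.card * ((prefixed g).filter (fun f => ∃ S ∈ U, S ⊂ g ∧ f ∈ prefixed S)).card ≤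
      (g.card - lo) * (prefixed g).card + β * (prefixed g).card := by
    calc _ ≤ g.card * ((late g x lo).card + ((U.filter (fun S => x ∈ S ∧ S ⊂ g)).biUnion
        (fun S => prefixed g ∩ prefixed S)).card) :=
          Nat.mul_le_mul_left _ ((card_le_card hsub).trans (card_union_le _ _))
      _ ≤ _ := by rw [mul_add, h1]; exact Nat.add_le_add_left h2 _
  have h4 : (g.card : ℝ) * (((prefixed g).filter (fun f => ∃ S ∈ U, S ⊂ g ∧ f ∈ prefixed S)).card : ℝ)
      ≤ (((g.card - lo : ℕ) : ℝ) + β) * (prefixed g).card := by
    have := (Nat.cast_le (α := ℝ)).2 h3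
    push_cast at this
    rw [add_mul]; exact_mod_cast this
  have h5 : (g.card : ℝ) * (((prefixed g).filter (fun f => ∃ S ∈ U, S ⊂ g ∧ f ∈ prefixed S)).card : ℝ)
      ≤ g.card * (τ * (prefixed g).card) := by
    calc _ ≤ _ := h4
      _ ≤ (τ * g.card) * (prefixed g).card :=
          mul_le_mul_of_nonneg_right (hτ g hg) (Nat.cast_nonneg _)
      _ = _ := by ring
  exact le_of_mul_le_mul_left h5 (by exact_mod_cast hgpos)

theorem card_hits_le (U : Finset (Finset V)) : (hits U).card ≤ (Fintype.card V).factorial := by
  calc (hits U).card ≤ (univ : Finset (Numbering V)).card := card_le_card (subset_univ _)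
    _ = _ := by rw [card_univ]; exact Fintype.card_numbering

theorem choose_mul_card_prefixed (S : Finset V) :
    (Fintype.card V).choose S.card * (prefixed S).card = (Fintype.card V).factorial := by
  rw [card_prefixed, ← mul_assoc]
  exact Nat.choose_mul_factorial_mul_factorial (card_le_univ S)

/-- `|U| n! ≤ C(n, n/2) mass U`. -/
theorem card_mul_factorial_le (U : Finset (Finset V)) :
    U.card * (Fintype.card V).factorial ≤
      (Fintype.card V).choose (Fintype.card V / 2) * mass U := by
  rw [mass, mul_sum, ← smul_eq_mul, ← sum_const]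
  apply sum_le_sum
  intro g _
  rw [← choose_mul_card_prefixed g]
  exact Nat.mul_le_mul_right _ (Nat.choose_le_middle _ _)

end Pool.Agent.N363.UC
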