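import Pool.Agent.N363.UC.Chain

/-!
# Containers for the irreducible members of union-closed families
-/

set_option autoImplicit false
set_option linter.unusedSectionVars false

namespace Pool.Agent.N363.UC

open Finset Numbering

variable {V : Type*} [Fintype V] [DecidableEq V]

/-- The irreducible members: those with an element in no smaller member contained in them. -/
def gens (A : Finset (Finset V)) : Finset (Finset V) :=
  A.filter (fun g => ∃ x ∈ g, ∀ Y ∈ A, Y ⊂ g → x ∉ Y)

theorem exists_gen {A : Finset (Finset V)} : ∀ {X : Finset V}, X ∈ A → ∀ {x : V}, x ∈ X →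
    ∃ g ∈ gens A, x ∈ g ∧ g ⊆ X := by
  intro X
  induction X using Finset.strongInduction with
  | H X ih =>
    intro hX x hx
    by_cases h : ∃ x ∈ X, ∀ Y ∈ A, Y ⊂ X → x ∉ Y
    · exact ⟨X, by rw [gens, mem_filter]; exact ⟨hX, h⟩, hx, Subset.rfl⟩
    · push Not at h
      obtain ⟨Y, hY, hYX, hxY⟩ := h x hx
      obtain ⟨g, hg, hxg, hgY⟩ := ih Y hYX hY hxY
      exact ⟨g, hg, hxg, hgY.trans hYX.1⟩

/-- The nonempty sets all of whose elements are covered by members of `G` contained in the set. -/
def span (G : Finset (Finset V)) : Finset (Finset V) :=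
  univ.filter (fun X => X.Nonempty ∧ ∀ x ∈ X, ∃ g ∈ G, x ∈ g ∧ g ⊆ X)

theorem mem_span {G : Finset (Finset V)} {X : Finset V} :
    X ∈ span G ↔ X.Nonempty ∧ ∀ x ∈ X, ∃ g ∈ G, x ∈ g ∧ g ⊆ X := by
  simp [span]

theorem mem_span_gens {A : Finset (Finset V)} (hU : ∀ X ∈ A, ∀ Y ∈ A, X ∪ Y ∈ A) {X : Finset V} :
    X ∈ span (gens A) ↔ X ∈ A ∧ X.Nonempty := by
  rw [mem_span]
  constructor
  · rintro ⟨hne, h⟩
    refine ⟨?_, hne⟩
    have hTne : (A.filter (fun Y => Y ⊆ X)).Nonempty := by
      obtain ⟨x, hx⟩ := hne
      obtain ⟨g, hg, _, hgX⟩ := h x hx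
      exact ⟨g, by rw [mem_filter]; exact ⟨(mem_filter.1 hg).1, hgX⟩⟩
    have h1 : (A.filter (fun Y => Y ⊆ X)).sup' hTne id ∈ (A : Set (Finset V)) := by
      apply Finset.sup'_mem
      · intro x hx y hy; exact_mod_cast hU x (by exact_mod_cast hx) y (by exact_mod_cast hy)
      · intro i hi; exact_mod_cast (mem_filter.1 hi).1
    have h2 : (A.filter (fun Y => Y ⊆ X)).sup' hTne id = X := by
      apply le_antisymm
      · apply Finset.sup'_le; intro b hb; exact (mem_filter.1 hb).2
      · intro x hx
        obtain ⟨g, hg, hxg, hgX⟩ := h x hx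
        have h3 : g ≤ (A.filter (fun Y => Y ⊆ X)).sup' hTne id := by
          apply Finset.le_sup' id
          rw [mem_filter]; exact ⟨(mem_filter.1 hg).1, hgX⟩
        exact h3 hxg
    rw [h2] at h1; exact_mod_cast h1
  · rintro ⟨hX, hne⟩
    exact ⟨hne, fun x hx => exists_gen hX hx⟩

/-- The sets of size `k` in the span depend only on the generators of size at most `k`. -/
theorem span_level (G : Finset (Finset V)) (k : ℕ) :
    (span G).filter (fun X => X.card = k) =
      (span (G.filter (fun g => g.card ≤ k))).filter (fun X => X.card = k) := by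
  ext X
  simp only [mem_filter, mem_span]
  constructor
  · rintro ⟨⟨hne, h⟩, hk⟩
    refine ⟨⟨hne, fun x hx => ?_⟩, hk⟩
    obtain ⟨g, hg, hxg, hgX⟩ := h x hx
    exact ⟨g, ⟨hg, hk ▸ card_le_card hgX⟩, hxg, hgX⟩
  · rintro ⟨⟨hne, h⟩, hk⟩
    refine ⟨⟨hne, fun x hx => ?_⟩, hk⟩
    obtain ⟨g, ⟨hg, _⟩, hxg, hgX⟩ := h x hx
    exact ⟨g, hg, hxg, hgX⟩

/-- Every member of the container has an element lying in at most `β` smaller members. -/
def Terminal (β : ℕ) (U : Finset (Finset V)) : Prop :=
  ∀ g ∈ U, ∃ x ∈ g, (U.filter (fun S => x ∈ S ∧ S ⊂ g)).card ≤ β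

/-- The container lemma (Kleitman–Winston algorithm). -/
theorem container (β : ℕ) (U : Finset (Finset V)) :
    ∃ Φ : Finset (Finset V × V) → Finset (Finset V),
      ∀ (G : Finset (Finset V)) (r : Finset V → V),
        (∀ g ∈ G, r g ∈ g ∧ ∀ S ∈ G, S ⊂ g → r g ∉ S) →
        ∃ P : Finset (Finset V × V), (∀ p ∈ P, p.1 ∈ G ∧ p.1 ∈ U ∧ p.2 = r p.1) ∧
          P.card * (β + 1) ≤ U.card ∧ Φ P ⊆ U ∧ (∀ g ∈ G, g ∈ U → g ∈ P.image Prod.fst ∨ g ∈ Φ P) ∧
          Terminal β (Φ P) := by
  classical
  induction U using Finset.strongInduction with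
  | H U ih =>
    by_cases hterm : Terminal β U
    · refine ⟨fun _ => U, fun G r _ => ⟨∅, by simp, by simp, Subset.rfl, fun g _ hg => Or.inr hg,
        hterm⟩⟩
    · unfold Terminal at hterm
      push Not at hterm
      obtain ⟨g, hgU, hg⟩ := hterm
      obtain ⟨Φ0, h0⟩ := ih (U.erase g) (erase_ssubset hgU)
      have hx : ∀ x : V, (U.erase g).filter (fun S => ¬ (x ∈ S ∧ S ⊂ g)) ⊂ U := fun x =>
        lt_of_le_of_lt (filter_subset _ _) (erase_ssubset hgU)
      choose Φx h1 using fun x => ih _ (hx x)
      refine ⟨fun P => if h : ∃ x, (g, x) ∈ P then Φx h.choose (P.erase (g, h.choose)) else Φ0 P, ?_⟩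
      intro G r hr
      by_cases hgG : g ∈ G
      · obtain ⟨P', hP1, hP2, hP3, hP4, hP5⟩ := h1 (r g) G r hr
        have hnot : ∀ x, (g, x) ∉ P' := by
          intro x hx
          have := (hP1 _ hx).2.1
          rw [mem_filter, mem_erase] at this
          exact this.1.1 rfl
        have hex : ∃ x, (g, x) ∈ insert (g, r g) P' := ⟨r g, mem_insert_self _ _⟩
        have hch : hex.choose = r g := by
          have := hex.choose_spec
          rw [mem_insert] at this
          rcases this with h | h
          · exact (Prod.mk.inj h).2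
          · exact absurd h (hnot _)
        have hΦ : (if h : ∃ x, (g, x) ∈ insert (g, r g) P' then
            Φx h.choose ((insert (g, r g) P').erase (g, h.choose)) else Φ0 (insert (g, r g) P'))
            = Φx (r g) P' := by
          rw [dif_pos hex, hch, erase_insert (hnot _)]
        refine ⟨insert (g, r g) P', ?_, ?_, ?_, ?_, ?_⟩
        · intro p hp
          rw [mem_insert] at hp
          rcases hp with rfl | hp
          · exact ⟨hgG, hgU, rfl⟩
          · have := hP1 p hp
            exact ⟨this.1, (mem_erase.1 (mem_filter.1 this.2.1).1).2, this.2.2⟩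
        · rw [card_insert_of_notMem (hnot _), add_mul, one_mul]
          have hd := hg (r g) (hr g hgG).1
          have hd' : (U.filter (fun S => r g ∈ S ∧ S ⊂ g)).card =
              ((U.erase g).filter (fun S => r g ∈ S ∧ S ⊂ g)).card := by
            congr 1
            ext S
            simp only [mem_filter, mem_erase]
            constructor
            · rintro ⟨h1, h2, h3⟩; exact ⟨⟨h3.ne, h1⟩, h2, h3⟩
            · rintro ⟨⟨_, h1⟩, h2, h3⟩; exact ⟨h1, h2, h3⟩
          have hs := card_filter_add_card_filter_not (s := U.erase g)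
            (fun S => r g ∈ S ∧ S ⊂ g)
          have he : (U.erase g).card + 1 = U.card := card_erase_add_one hgU
          omega
        · simp only [hΦ]; exact hP3.trans (hx (r g)).1
        · simp only [hΦ]
          intro h hh hhU
          by_cases hhg : h = g
          · left; rw [hhg, mem_image]; exact ⟨(g, r g), mem_insert_self _ _, rfl⟩
          · rcases hP4 h hh (by
              rw [mem_filter, mem_erase]
              exact ⟨⟨hhg, hhU⟩, fun hc => (hr g hgG).2 h hh hc.2 hc.1⟩) with h2 | h2
            · left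
              rw [mem_image] at *
              obtain ⟨p, hp, hp'⟩ := h2
              exact ⟨p, mem_insert_of_mem hp, hp'⟩
            · right; exact h2
        · simp only [hΦ]; exact hP5
      · obtain ⟨P', hP1, hP2, hP3, hP4, hP5⟩ := h0 G r hr
        have hnex : ¬ ∃ x, (g, x) ∈ P' := by
          rintro ⟨x, hx⟩
          exact hgG (hP1 _ hx).1
        refine ⟨P', ?_, ?_, ?_, ?_, ?_⟩
        · intro p hp
          have := hP1 p hp
          exact ⟨this.1, (mem_erase.1 this.2.1).2, this.2.2⟩
        · exact hP2.trans (card_le_card (erase_subset _ _))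
        · simp only [dif_neg hnex]; exact hP3.trans (erase_subset _ _)
        · simp only [dif_neg hnex]
          intro h hh hhU
          exact hP4 h hh (mem_erase.2 ⟨fun h1 => hgG (h1 ▸ hh), hhU⟩)
        · simp only [dif_neg hnex]; exact hP5

theorem mass_level {B : Finset (Finset V)} {k : ℕ} (hB : ∀ S ∈ B, S.card = k) :
    mass B = (hits B).card := by
  rw [mass, ← card_biUnion]
  · congr 1
    ext f
    simp [hits]
  · intro S hS T hT hne
    rw [Function.onFun, Finset.disjoint_left]
    intro f hf hf'
    exact hne (prefixed_eq_of_card hf hf' (by rw [hB S hS, hB T hT]))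

/-- If the roots of the members of `U` avoid the members of the family `B` of sets of size `k`, then
few numberings have a prefix in `U` and a prefix in `B`. -/
theorem hits_add_mass_le {U B : Finset (Finset V)} {k : ℕ} {τ : ℝ} (hB : ∀ S ∈ B, S.card = k)
    (hk : ∀ g ∈ U, k < g.card) (hroot : ∀ g ∈ U, ∃ x ∈ g, ∀ Y ∈ B, Y ⊂ g → x ∉ Y)
    (hτ : ∀ g ∈ U, ((g.card - k : ℕ) : ℝ) ≤ τ * g.card) :
    ((hits U).card : ℝ) + mass B ≤ (Fintype.card V).factorial + τ * mass U := by
  rcases isEmpty_or_nonempty V with hV | hV
  · have hUe : U = ∅ := by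
      rw [Finset.eq_empty_iff_forall_notMem]
      intro g hg
      have h1 := hk g hg
      have h2 := card_le_univ g
      rw [Fintype.card_eq_zero] at h2
      omega
    subst hUe
    rw [mass_level hB]
    have h1 : ((hits B).card : ℝ) ≤ (Fintype.card V).factorial := by exact_mod_cast card_hits_le B
    simpa [hits, mass] using h1
  choose! x hx hxY using hroot
  have h1 : (hits U ∩ hits B) ⊆ U.biUnion (fun g => late g (x g) k) := by
    intro f hf
    rw [mem_inter, hits, hits, mem_filter, mem_filter] at hf
    obtain ⟨⟨_, g, hg, hfg⟩, ⟨_, S, hS, hfS⟩⟩ := hf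
    rw [mem_biUnion]
    refine ⟨g, hg, ?_⟩
    rw [late, mem_filter]
    refine ⟨hfg, fun hlt => ?_⟩
    have hsub : S ⊆ g := prefixed_subset_of_lt hfS hfg (by rw [hB S hS]; exact (hk g hg).le)
    have hne : S ≠ g := by
      rintro rfl
      have := hk S hg
      rw [hB S hS] at this
      omega
    apply hxY g hg S hS (Finset.ssubset_iff_subset_ne.2 ⟨hsub, hne⟩)
    rw [mem_prefixed_iff.1 hfS, mem_pre, hB S hS]; exact hlt
  have h2 : ((U.biUnion (fun g => late g (x g) k)).card : ℝ) ≤ τ * mass U := by
    calc ((U.biUnion (fun g => late g (x g) k)).card : ℝ) ≤ ∑ g ∈ U, ((late g (x g) k).card : ℝ) := by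
          exact_mod_cast card_biUnion_le
      _ ≤ ∑ g ∈ U, τ * ((prefixed g).card : ℝ) := by
          apply sum_le_sum
          intro g hg
          have hgpos : (0 : ℝ) < g.card := by
            have := hk g hg
            exact_mod_cast (by omega : 0 < g.card)
          have e1 := card_late (hx g hg) k
          have e2 : (g.card : ℝ) * ((late g (x g) k).card : ℝ) =
              ((g.card - k : ℕ) : ℝ) * ((prefixed g).card : ℝ) := by exact_mod_cast e1
          have e3 : (g.card : ℝ) * ((late g (x g) k).card : ℝ) ≤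
              g.card * (τ * (prefixed g).card) := by
            rw [e2]
            calc _ ≤ (τ * g.card) * ((prefixed g).card : ℝ) :=
                  mul_le_mul_of_nonneg_right (hτ g hg) (Nat.cast_nonneg _)
              _ = _ := by ring
          exact le_of_mul_le_mul_left e3 hgpos
      _ = τ * mass U := by rw [mass]; push_cast; rw [mul_sum]
  have h3 := card_union_add_card_inter (hits U) (hits B)
  have h4 : (hits U ∪ hits B).card ≤ (Fintype.card V).factorial := by
    calc _ ≤ (univ : Finset (Numbering V)).card := card_le_card (subset_univ _)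
      _ = _ := by rw [card_univ]; exact Fintype.card_numbering
  have h5 : ((hits U ∩ hits B).card : ℝ) ≤ τ * mass U :=
    le_trans (by exact_mod_cast card_le_card h1) h2
  rw [mass_level hB]
  have h6 : ((hits U).card : ℝ) + (hits B).card = (hits U ∪ hits B).card + (hits U ∩ hits B).card := by
    exact_mod_cast h3.symm
  have h7 : ((hits U ∪ hits B).card : ℝ) ≤ (Fintype.card V).factorial := by exact_mod_cast h4
  linarith

/-- If every set of size `k` outside `A` has an element covered by no member of `W` inside the set,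
then most numberings with a prefix in `W` have a prefix in `A` of size `k`. -/
theorem hits_le_mass {W A : Finset (Finset V)} {k b : ℕ} {τ : ℝ} (hb : ∀ g ∈ W, b ≤ g.card)
    (hW : ∀ g ∈ W, g.card ≤ k) (hkn : k ≤ Fintype.card V) (hk : 0 < k)
    (hroot : ∀ S : Finset V, S.card = k → S ∉ A → ∃ x ∈ S, ∀ g ∈ W, g ⊆ S → x ∉ g)
    (hτ : ((k - b : ℕ) : ℝ) ≤ τ * k) (hτ0 : 0 ≤ τ) :
    ((hits W).card : ℝ) ≤ mass (A.filter (fun X => X.card = k)) +
      τ * (Fintype.card V).factorial := by
  classical
  have hV : Nonempty V := Fintype.card_pos_iff.1 (by omega)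
  choose! x hx hxg using hroot
  have h1 : hits W ⊆ hits (A.filter (fun X => X.card = k)) ∪
      ((univ : Finset (Finset V)).filter (fun S => S.card = k ∧ S ∉ A)).biUnion
        (fun S => late S (x S) b) := by
    intro f hf
    rw [hits, mem_filter] at hf
    obtain ⟨_, g, hg, hfg⟩ := hf
    have hfS := mem_prefixed_pre f hkn
    have hcS := card_pre f hkn
    rw [mem_union]
    by_cases hSA : pre f k ∈ A
    · left
      rw [hits, mem_filter]
      exact ⟨mem_univ _, pre f k, mem_filter.2 ⟨hSA, hcS⟩, hfS⟩
    · right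
      rw [mem_biUnion]
      refine ⟨pre f k, by rw [mem_filter]; exact ⟨mem_univ _, hcS, hSA⟩, ?_⟩
      rw [late, mem_filter]
      refine ⟨hfS, fun hlt => ?_⟩
      have hgS : g ⊆ pre f k := prefixed_subset_of_lt hfg hfS (by rw [hcS]; exact hW g hg)
      apply hxg _ hcS hSA g hg hgS
      rw [mem_prefixed_iff.1 hfg, mem_pre]
      exact lt_of_lt_of_le hlt (hb g hg)
  have hkpos : (0 : ℝ) < k := by exact_mod_cast hk
  have h2 : ((((univ : Finset (Finset V)).filter (fun S => S.card = k ∧ S ∉ A)).biUnion
        (fun S => late S (x S) b)).card : ℝ) ≤ τ * (Fintype.card V).factorial := by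
    calc _ ≤ ∑ S ∈ (univ : Finset (Finset V)).filter (fun S => S.card = k ∧ S ∉ A),
          ((late S (x S) b).card : ℝ) := by exact_mod_cast card_biUnion_le
      _ ≤ ∑ S ∈ (univ : Finset (Finset V)).filter (fun S => S.card = k ∧ S ∉ A),
          τ * ((prefixed S).card : ℝ) := by
          apply sum_le_sum
          intro S hS
          rw [mem_filter] at hS
          obtain ⟨_, hSk, hSA⟩ := hS
          have e1 := card_late (hx S hSk hSA) b
          have e2 : (S.card : ℝ) * ((late S (x S) b).card : ℝ) =
              ((S.card - b : ℕ) : ℝ) * ((prefixed S).card : ℝ) := by exact_mod_cast e1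
          rw [hSk] at e2
          have e3 : (k : ℝ) * ((late S (x S) b).card : ℝ) ≤ k * (τ * (prefixed S).card) := by
            rw [e2]
            calc _ ≤ (τ * k) * ((prefixed S).card : ℝ) :=
                  mul_le_mul_of_nonneg_right hτ (Nat.cast_nonneg _)
              _ = _ := by ring
          exact le_of_mul_le_mul_left e3 hkpos
      _ = τ * mass ((univ : Finset (Finset V)).filter (fun S => S.card = k ∧ S ∉ A)) := by
          rw [mass]; push_cast; rw [mul_sum]
      _ ≤ τ * (Fintype.card V).factorial := by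
          apply mul_le_mul_of_nonneg_left _ hτ0
          rw [mass_level (k := k) (fun S hS => (mem_filter.1 hS).2.1)]
          exact_mod_cast card_hits_le _
  have h3 : ((hits W).card : ℝ) ≤ (hits (A.filter (fun X => X.card = k))).card +
      (((univ : Finset (Finset V)).filter (fun S => S.card = k ∧ S ∉ A)).biUnion
        (fun S => late S (x S) b)).card := by
    exact_mod_cast (card_le_card h1).trans (card_union_le _ _)
  rw [mass_level (k := k) (fun S hS => (mem_filter.1 hS).2)]
  linarith

theorem choose_mul_mass_level {B : Finset (Finset V)} {k : ℕ} (hB : ∀ S ∈ B, S.card = k) :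
    (Fintype.card V).choose k * mass B = B.card * (Fintype.card V).factorial := by
  rw [mass, mul_sum, ← smul_eq_mul, ← sum_const]
  apply sum_congr rfl
  intro S hS
  rw [← choose_mul_card_prefixed S, hB S hS]

end Pool.Agent.N363.UC
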