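import Mathlib

/-!
# The weighted sum over the levels, and counting small subsets
-/

set_option autoImplicit false
set_option linter.unusedSectionVars false

namespace Pool.Agent.N363.UC

open Finset

theorem tele_step (n j : ℕ) (hj : j < n) :
    (2 * ((j + 1 : ℕ) : ℝ) - n) * (n.choose (j + 1) : ℝ) =
      ((n : ℝ) - j) * (n.choose j : ℝ) - ((n : ℝ) - (j + 1 : ℕ)) * (n.choose (j + 1) : ℝ) := by
  have h := Nat.choose_succ_right_eq n j
  have h' : (n.choose (j + 1) : ℝ) * ((j : ℝ) + 1) = (n.choose j : ℝ) * ((n : ℝ) - j) := by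
    have := congrArg (Nat.cast (R := ℝ)) h
    push_cast [Nat.cast_sub hj.le] at this
    exact this
  push_cast
  linarith

theorem tele (n j : ℕ) : ∀ j', j ≤ j' → j' ≤ n →
    ∑ k ∈ Ioc j j', (2 * (k : ℝ) - n) * (n.choose k : ℝ) =
      ((n : ℝ) - j) * (n.choose j : ℝ) - ((n : ℝ) - j') * (n.choose j' : ℝ) := by
  intro j' h
  induction j', h using Nat.le_induction with
  | base => intro _; simp
  | succ k hk ih =>
    intro hkn
    rw [← Finset.sum_Ioc_consecutive _ hk (Nat.le_succ k), ih (by omega), Nat.Ioc_succ_singleton,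
      sum_singleton, tele_step n k (by omega)]
    push_cast
    ring

theorem sum_half (n : ℕ) (a : ℕ → ℝ) :
    ∑ k ∈ range (n + 1), a k * (2 * (k : ℝ) - n) =
      ∑ k ∈ Ioc (n / 2) n, (a k - a (n - k)) * (2 * (k : ℝ) - n) := by
  have hsplit : ∑ k ∈ range (n + 1), a k * (2 * (k : ℝ) - n) =
      ∑ k ∈ (range (n + 1)).filter (fun k => n < 2 * k), a k * (2 * (k : ℝ) - n) +
      ∑ k ∈ (range (n + 1)).filter (fun k => 2 * k < n), a k * (2 * (k : ℝ) - n) := by
    rw [← sum_filter_add_sum_filter_not (range (n + 1)) (fun k => n < 2 * k)]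
    congr 1
    rw [← sum_filter_add_sum_filter_not ((range (n + 1)).filter (fun k => ¬ n < 2 * k))
      (fun k => 2 * k < n)]
    have h1 : ((range (n + 1)).filter (fun k => ¬ n < 2 * k)).filter (fun k => 2 * k < n) =
        (range (n + 1)).filter (fun k => 2 * k < n) := by
      ext k; simp only [mem_filter, mem_range]; omega
    have h2 : ∑ k ∈ ((range (n + 1)).filter (fun k => ¬ n < 2 * k)).filter (fun k => ¬ 2 * k < n),
        a k * (2 * (k : ℝ) - n) = 0 := by
      apply sum_eq_zero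
      intro k hk
      simp only [mem_filter, mem_range] at hk
      have h3 : 2 * k = n := by omega
      have h4 : (2 * (k : ℝ) - n) = 0 := by rw [← h3]; push_cast; ring
      rw [h4, mul_zero]
    rw [h1, h2, add_zero]
  have hR : (range (n + 1)).filter (fun k => n < 2 * k) = Ioc (n / 2) n := by
    ext k; simp only [mem_filter, mem_range, mem_Ioc]; omega
  have hL : ∑ k ∈ (range (n + 1)).filter (fun k => 2 * k < n), a k * (2 * (k : ℝ) - n) =
      ∑ k ∈ Ioc (n / 2) n, a (n - k) * ((n : ℝ) - 2 * k) := by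
    apply sum_nbij' (fun k => n - k) (fun k => n - k)
    · intro k hk; simp only [mem_filter, mem_range, mem_Ioc] at *; omega
    · intro k hk; simp only [mem_filter, mem_range, mem_Ioc] at *; omega
    · intro k hk; simp only [mem_filter, mem_range] at *; omega
    · intro k hk; simp only [mem_Ioc] at *; omega
    · intro k hk
      simp only [mem_filter, mem_range] at hk
      have h1 : n - (n - k) = k := by omega
      rw [h1, Nat.cast_sub (by omega : k ≤ n)]
      ring
  rw [hsplit, hR, hL, ← sum_add_distrib]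
  apply sum_congr rfl
  intro k _
  ring

/-- The weighted sum is large when the levels slightly above the middle are not sparse and the
levels slightly below are sparse. -/
theorem sum_lower (n top hi : ℕ) (a : ℕ → ℝ) (h0 : ∀ k, 0 ≤ a k)
    (h1 : ∀ k, a k ≤ n.choose k) (hm : n / 2 ≤ top) (ht : top ≤ hi) (hn : hi ≤ n)
    (hA : ∀ k, top < k → k ≤ hi → (19 / 100 : ℝ) * n.choose k ≤ a k)
    (hB : ∀ k, top < k → k ≤ hi → a (n - k) ≤ (5 / 100 : ℝ) * n.choose k) :
    (114 / 100 : ℝ) * (((n : ℝ) - top) * n.choose top) -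
      ((n : ℝ) - (n / 2 : ℕ)) * n.choose (n / 2) -
      (114 / 100 : ℝ) * (((n : ℝ) - hi) * n.choose hi) ≤
      ∑ k ∈ range (n + 1), a k * (2 * (k : ℝ) - n) := by
  rw [sum_half, ← Finset.sum_Ioc_consecutive _ hm (ht.trans hn),
    ← Finset.sum_Ioc_consecutive _ ht hn]
  have hpos : ∀ k, n / 2 < k → (0 : ℝ) ≤ 2 * (k : ℝ) - n := by
    intro k hk
    have : (n : ℝ) ≤ 2 * (k : ℝ) := by exact_mod_cast (by omega : n ≤ 2 * k)
    linarith
  have e1 : -(∑ k ∈ Ioc (n / 2) top, (2 * (k : ℝ) - n) * (n.choose k : ℝ)) ≤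
      ∑ k ∈ Ioc (n / 2) top, (a k - a (n - k)) * (2 * (k : ℝ) - n) := by
    rw [← sum_neg_distrib]
    apply sum_le_sum
    intro k hk
    rw [mem_Ioc] at hk
    have h2 := hpos k hk.1
    have h3 : a (n - k) ≤ n.choose k := by
      have := h1 (n - k)
      rwa [Nat.choose_symm (by omega : k ≤ n)] at this
    have h4 : 0 ≤ (a k - a (n - k) + n.choose k) * (2 * (k : ℝ) - n) :=
      mul_nonneg (by linarith [h0 k]) h2
    nlinarith
  have e3 : -(∑ k ∈ Ioc hi n, (2 * (k : ℝ) - n) * (n.choose k : ℝ)) ≤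
      ∑ k ∈ Ioc hi n, (a k - a (n - k)) * (2 * (k : ℝ) - n) := by
    rw [← sum_neg_distrib]
    apply sum_le_sum
    intro k hk
    rw [mem_Ioc] at hk
    have h2 := hpos k (by omega)
    have h3 : a (n - k) ≤ n.choose k := by
      have := h1 (n - k)
      rwa [Nat.choose_symm (by omega : k ≤ n)] at this
    have h4 : 0 ≤ (a k - a (n - k) + n.choose k) * (2 * (k : ℝ) - n) :=
      mul_nonneg (by linarith [h0 k]) h2
    nlinarith
  have e2 : (14 / 100 : ℝ) * (∑ k ∈ Ioc top hi, (2 * (k : ℝ) - n) * (n.choose k : ℝ)) ≤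
      ∑ k ∈ Ioc top hi, (a k - a (n - k)) * (2 * (k : ℝ) - n) := by
    rw [mul_sum]
    apply sum_le_sum
    intro k hk
    rw [mem_Ioc] at hk
    have h2 := hpos k (by omega)
    have h3 := hA k hk.1 hk.2
    have h4 := hB k hk.1 hk.2
    have h5 : 0 ≤ (a k - a (n - k) - (14 / 100 : ℝ) * n.choose k) * (2 * (k : ℝ) - n) :=
      mul_nonneg (by linarith) h2
    nlinarith
  rw [tele n (n / 2) top hm (ht.trans hn)] at e1
  rw [tele n top hi ht hn] at e2
  rw [tele n hi n hn le_rfl] at e3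
  have : ((n : ℝ) - (n : ℝ)) * (n.choose n : ℝ) = 0 := by ring
  linarith

/-- The number of subsets with at most `m` elements. -/
theorem card_small_subsets {α : Type*} [DecidableEq α] (Y : Finset α) (m : ℕ) {x : ℝ} (hx0 : 0 < x)
    (hx1 : x ≤ 1) :
    ((Y.powerset.filter (fun H => H.card ≤ m)).card : ℝ) * x ^ m ≤ (1 + x) ^ Y.card := by
  have h1 : (1 + x) ^ Y.card = ∑ H ∈ Y.powerset, x ^ H.card := by
    rw [add_comm, ← Finset.sum_pow_mul_eq_add_pow]
    simp
  rw [h1]
  calc ((Y.powerset.filter (fun H => H.card ≤ m)).card : ℝ) * x ^ m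
      = ∑ H ∈ Y.powerset.filter (fun H => H.card ≤ m), x ^ m := by rw [sum_const, nsmul_eq_mul]
    _ ≤ ∑ H ∈ Y.powerset.filter (fun H => H.card ≤ m), x ^ H.card := by
        apply sum_le_sum
        intro H hH
        exact pow_le_pow_of_le_one hx0.le hx1 (mem_filter.1 hH).2
    _ ≤ _ := sum_le_sum_of_subset_of_nonneg (filter_subset _ _) (fun H _ _ => by positivity)

theorem card_biUnion_le_real {ι β : Type*} [DecidableEq β] (s : Finset ι) (f : ι → Finset β)
    {K : ℝ} (h : ∀ a ∈ s, ((f a).card : ℝ) ≤ K) : ((s.biUnion f).card : ℝ) ≤ s.card * K := by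
  calc ((s.biUnion f).card : ℝ) ≤ ∑ a ∈ s, ((f a).card : ℝ) := by exact_mod_cast card_biUnion_le
    _ ≤ ∑ _a ∈ s, K := sum_le_sum h
    _ = _ := by rw [sum_const, nsmul_eq_mul]

/-- `16 ^ m ≤ 4 m C(2m, m)²`. -/
theorem central_lower : ∀ m : ℕ, 1 ≤ m → 16 ^ m ≤ 4 * m * (Nat.centralBinom m) ^ 2 := by
  intro m hm
  induction m, hm using Nat.le_induction with
  | base => decide
  | succ m hm ih =>
    have h := Nat.succ_mul_centralBinom_succ m
    -- (m+1) * cb (m+1) = 2 * (2m+1) * cb m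
    have h2 : (m + 1) ^ 2 * (Nat.centralBinom (m + 1)) ^ 2 =
        4 * (2 * m + 1) ^ 2 * (Nat.centralBinom m) ^ 2 := by
      have := congrArg (fun t => t ^ 2) h
      simp only [mul_pow] at this
      linarith
    have h3 : (m + 1) * 16 ^ (m + 1) ≤ (m + 1) * (4 * (m + 1) * (Nat.centralBinom (m + 1)) ^ 2) := by
      calc (m + 1) * 16 ^ (m + 1) = 16 * (m + 1) * 16 ^ m := by ring
        _ ≤ 16 * (m + 1) * (4 * m * (Nat.centralBinom m) ^ 2) := Nat.mul_le_mul_left _ ih
        _ = 16 * (4 * m * (m + 1)) * (Nat.centralBinom m) ^ 2 := by ring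
        _ ≤ 16 * ((2 * m + 1) ^ 2) * (Nat.centralBinom m) ^ 2 := by
            apply Nat.mul_le_mul_right
            apply Nat.mul_le_mul_left
            nlinarith
        _ = 4 * ((m + 1) ^ 2 * (Nat.centralBinom (m + 1)) ^ 2) := by rw [h2]; ring
        _ = (m + 1) * (4 * (m + 1) * (Nat.centralBinom (m + 1)) ^ 2) := by ring
    exact Nat.le_of_mul_le_mul_left h3 (Nat.succ_pos m)

/-- `4 ^ n ≤ 4 n C(n, n/2)²` for `n ≥ 1`. -/
theorem middle_lower (n : ℕ) (hn : 1 ≤ n) : 4 ^ n ≤ 4 * n * (n.choose (n / 2)) ^ 2 := by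
  rcases Nat.even_or_odd' n with ⟨m, rfl | rfl⟩
  · have h := central_lower m (by omega)
    rw [Nat.centralBinom] at h
    have h2 : 2 * m / 2 = m := by omega
    rw [h2, pow_mul]
    calc (4 ^ 2) ^ m = 16 ^ m := by norm_num
      _ ≤ _ := h
      _ ≤ _ := by nlinarith [Nat.zero_le (m * (Nat.choose (2 * m) m) ^ 2)]
  · have h := central_lower (m + 1) (by omega)
    rw [Nat.centralBinom] at h
    have h2 : (2 * m + 1) / 2 = m := by omega
    rw [h2]
    have h3 : (2 * (m + 1)).choose (m + 1) = 2 * (2 * m + 1).choose m := by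
      have e : 2 * (m + 1) = (2 * m + 1) + 1 := by ring
      rw [e, Nat.choose_succ_succ]
      have : (2 * m + 1).choose (m + 1) = (2 * m + 1).choose m := by
        rw [← Nat.choose_symm_of_eq_add (show 2 * m + 1 = m + (m + 1) by ring)]
      rw [this]; ring
    rw [h3] at h
    have h4 : 4 * 4 ^ (2 * m + 1) = 16 ^ (m + 1) := by
      have : (16 : ℕ) = 4 ^ 2 := by norm_num
      rw [this, ← pow_mul, mul_comm 4 (4 ^ (2 * m + 1)), ← pow_succ]
      congr 1
    have h5 : 4 * 4 ^ (2 * m + 1) ≤ 4 * (4 * (2 * m + 1) * (Nat.choose (2 * m + 1) m) ^ 2) := by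
      rw [h4]
      calc _ ≤ _ := h
        _ ≤ _ := by nlinarith [Nat.zero_le ((Nat.choose (2 * m + 1) m) ^ 2),
                Nat.zero_le (m * (Nat.choose (2 * m + 1) m) ^ 2)]
    omega

end Pool.Agent.N363.UC
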