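import Pool.Agent.N363.UC.Container
import Pool.Agent.N363.UC.SumPos

/-!
# Counting the families with a given container
-/

set_option autoImplicit false
set_option linter.unusedSectionVars false

namespace Pool.Agent.N363.UC

open Finset Numbering

variable {V : Type*} [Fintype V] [DecidableEq V]

/-- The middle binomial coefficient. -/
def CC (V : Type*) [Fintype V] : ℕ := (Fintype.card V).choose (Fintype.card V / 2)

theorem CC_pos : 0 < CC V := Nat.choose_pos (Nat.div_le_self _ _)

/-- The last level with almost maximal size. -/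
def top (V : Type*) [Fintype V] : ℕ :=
  Nat.findGreatest (fun k => 9 * CC V ≤ 10 * (Fintype.card V).choose k) (Fintype.card V)

theorem half_le_top : Fintype.card V / 2 ≤ top V := by
  apply Nat.le_findGreatest (Nat.div_le_self _ _)
  have : CC V = (Fintype.card V).choose (Fintype.card V / 2) := rfl
  omega

theorem top_spec : 9 * CC V ≤ 10 * (Fintype.card V).choose (top V) :=
  Nat.findGreatest_spec (P := fun k => 9 * CC V ≤ 10 * (Fintype.card V).choose k)
    (Nat.div_le_self (Fintype.card V) 2) (by
      have : CC V = (Fintype.card V).choose (Fintype.card V / 2) := rfl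
      omega)

theorem top_le : top V ≤ Fintype.card V := Nat.findGreatest_le _

/-- The bottom level. -/
def bot (V : Type*) [Fintype V] : ℕ := Fintype.card V - top V

theorem card_le_top {g : Finset V} (hg : 9 * CC V ≤ 10 * (Fintype.card V).choose g.card) :
    g.card ≤ top V := Nat.le_findGreatest (card_le_univ g) hg

theorem bot_le_card {g : Finset V} (hg : 9 * CC V ≤ 10 * (Fintype.card V).choose g.card) :
    bot V ≤ g.card := by
  have h1 : Fintype.card V - g.card ≤ top V := by
    apply Nat.le_findGreatest (Nat.sub_le _ _)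
    rwa [Nat.choose_symm (card_le_univ g)]
  unfold bot; omega

/-- The middle levels and the extreme levels. -/
def midl (V : Type*) [Fintype V] [DecidableEq V] (lo : ℕ) : Finset (Finset V) :=
  univ.filter (fun g => lo ≤ g.card ∧ g.card ≤ Fintype.card V - lo)

def extr (V : Type*) [Fintype V] [DecidableEq V] (lo : ℕ) : Finset (Finset V) :=
  univ.filter (fun g => ¬ (lo ≤ g.card ∧ g.card ≤ Fintype.card V - lo))

theorem choose_le_extr {lo k : ℕ}
    (h : ¬ (lo ≤ k ∧ k ≤ Fintype.card V - lo)) :
    (Fintype.card V).choose k ≤ (extr V lo).card := by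
  rw [← Finset.card_univ, ← Finset.card_powersetCard]
  apply card_le_card
  intro S hS
  rw [mem_powersetCard] at hS
  rw [extr, mem_filter]
  exact ⟨mem_univ _, by rw [hS.2]; exact h⟩

/-- The wide members of a family: those on levels of almost maximal size. -/
def wide (H : Finset (Finset V)) : Finset (Finset V) :=
  H.filter (fun g => 9 * CC V ≤ 10 * (Fintype.card V).choose g.card)

def narrow (H : Finset (Finset V)) : Finset (Finset V) :=
  H.filter (fun g => ¬ 9 * CC V ≤ 10 * (Fintype.card V).choose g.card)

theorem wide_union_narrow (H : Finset (Finset V)) : narrow H ∪ wide H = H := by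
  rw [union_comm]; exact filter_union_filter_not_eq _ _

/-- The members of a family with an element avoided by all sets of `B` contained in the member. -/
def rooted (B H : Finset (Finset V)) : Finset (Finset V) :=
  H.filter (fun g => ∃ x ∈ g, ∀ Y ∈ B, Y ⊂ g → x ∉ Y)

/-- The possible intersections of the set of irreducible members with the container `U` for the
exceptional families. -/
def adm (lo : ℕ) (U : Finset (Finset V)) (low : Finset (Finset V) → ℕ → Finset (Finset V)) :
    Finset (Finset (Finset V)) :=
  U.powerset.filter (fun H => 500 * U.card ≤ 499 * CC V ∨ 5 * (wide H).card ≤ CC V ∨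
    ∃ k ∈ range (bot V), lo ≤ k ∧ (Fintype.card V).choose k ≤ 20 * (low (narrow H) k).card ∧
      rooted (low (narrow H) k) (wide H) = wide H)

/-- Basic facts about a terminal container. -/
theorem terminal_mass {lo β : ℕ} (hlo : 0 < lo)
    (hτ : 8000 * ((Fintype.card V - lo) - lo + β) ≤ lo) {U : Finset (Finset V)}
    (hU : U ⊆ midl V lo) (hT : Terminal β U) :
    (multi U : ℝ) ≤ (1 / 8000 : ℝ) * mass U ∧
      (7999 / 8000 : ℝ) * mass U ≤ (Fintype.card V).factorial := by
  have hm : ∀ g ∈ U, lo ≤ g.card ∧ g.card ≤ Fintype.card V - lo := by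
    intro g hg
    have := hU hg
    rw [midl, mem_filter] at this
    exact this.2
  have h1 : (multi U : ℝ) ≤ (1 / 8000 : ℝ) * mass U := by
    apply multi_le (lo := lo) (β := β) (fun g hg => (hm g hg).1) hT
    intro g hg
    obtain ⟨h1, h2⟩ := hm g hg
    have h3 : 8000 * (g.card - lo + β) ≤ g.card := by omega
    have h4 : (8000 : ℝ) * (((g.card - lo : ℕ) : ℝ) + β) ≤ g.card := by exact_mod_cast h3
    linarith
  refine ⟨h1, ?_⟩
  have h2 := mass_le U
  have h3 := card_hits_le U
  have h4 : (mass U : ℝ) ≤ (hits U).card + multi U := by exact_mod_cast h2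
  have h5 : ((hits U).card : ℝ) ≤ (Fintype.card V).factorial := by exact_mod_cast h3
  linarith

theorem fact_pos : (0 : ℝ) < ((Fintype.card V).factorial : ℝ) := by
  exact_mod_cast Nat.factorial_pos _

theorem card_le_of_mass (U : Finset (Finset V)) {c : ℝ}
    (h : (mass U : ℝ) ≤ c * (Fintype.card V).factorial) : (U.card : ℝ) ≤ c * CC V := by
  have h1 := card_mul_factorial_le U
  have h2 : (U.card : ℝ) * (Fintype.card V).factorial ≤ CC V * mass U := by exact_mod_cast h1
  have h3 : (U.card : ℝ) * (Fintype.card V).factorial ≤ (c * CC V) * (Fintype.card V).factorial := by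
    calc _ ≤ _ := h2
      _ ≤ CC V * (c * (Fintype.card V).factorial) :=
          mul_le_mul_of_nonneg_left h (Nat.cast_nonneg _)
      _ = _ := by ring
  exact le_of_mul_le_mul_right h3 fact_pos

/-- A large container is almost contained in the wide levels. -/
theorem card_narrow_le {U : Finset (Finset V)}
    (hm : (7999 / 8000 : ℝ) * mass U ≤ (Fintype.card V).factorial)
    (hbig : 499 * CC V < 500 * U.card) : ((narrow U).card : ℝ) ≤ (1 / 50 : ℝ) * CC V := by
  have h1 : (U.card : ℝ) * (Fintype.card V).factorial +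
      (1 / 9 : ℝ) * (narrow U).card * (Fintype.card V).factorial ≤ CC V * mass U := by
    have e1 : (narrow U).card + (wide U).card = U.card := by
      rw [narrow, wide, add_comm]; exact card_filter_add_card_filter_not _
    have e2 : (mass U : ℝ) = mass (narrow U) + mass (wide U) := by
      have : mass U = mass (narrow U) + mass (wide U) := by
        rw [mass, mass, mass, narrow, wide, add_comm]
        exact (sum_filter_add_sum_filter_not _ _ _).symm
      exact_mod_cast this
    have e3 : ((wide U).card : ℝ) * (Fintype.card V).factorial ≤ CC V * mass (wide U) := by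
      exact_mod_cast card_mul_factorial_le (wide U)
    have e4 : (10 / 9 : ℝ) * (narrow U).card * (Fintype.card V).factorial ≤
        CC V * mass (narrow U) := by
      have : 10 * ((narrow U).card * (Fintype.card V).factorial) ≤ 9 * (CC V * mass (narrow U)) := by
        rw [mass, mul_sum, mul_sum, ← smul_eq_mul (a := (narrow U).card), ← sum_const, mul_sum]
        apply sum_le_sum
        intro g hg
        rw [narrow, mem_filter, not_le] at hg
        rw [← choose_mul_card_prefixed g]
        nlinarith [hg.2, Nat.zero_le (prefixed g).card]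
      have h2 : (10 : ℝ) * ((narrow U).card * (Fintype.card V).factorial) ≤
          9 * (CC V * mass (narrow U)) := by exact_mod_cast this
      linarith
    have e5 : (U.card : ℝ) = (narrow U).card + (wide U).card := by exact_mod_cast e1.symm
    rw [e2, e5]
    linarith
  have h2 : (499 : ℝ) * CC V < 500 * U.card := by exact_mod_cast hbig
  have h3 : (CC V : ℝ) * mass U ≤ CC V * ((8000 / 7999 : ℝ) * (Fintype.card V).factorial) := by
    apply mul_le_mul_of_nonneg_left _ (Nat.cast_nonneg _)
    linarith
  have hf := fact_pos (V := V)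
  have h4 : ((U.card : ℝ) + (1 / 9 : ℝ) * (narrow U).card) * (Fintype.card V).factorial ≤
      (8000 / 7999 * CC V : ℝ) * (Fintype.card V).factorial := by
    linarith
  have h5 := le_of_mul_le_mul_right h4 hf
  have h6 : (0 : ℝ) ≤ CC V := Nat.cast_nonneg _
  linarith

/-- The wide part rooted with respect to a dense lower level is small. -/
theorem card_rooted_le {lo β k : ℕ} (hlo : 0 < lo)
    (hτ : 8000 * ((Fintype.card V - lo) - lo + β) ≤ lo) {U : Finset (Finset V)}
    (hU : U ⊆ midl V lo) (hT : Terminal β U) (hk : lo ≤ k) (hkb : k < bot V)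
    {B : Finset (Finset V)} (hB : ∀ S ∈ B, S.card = k)
    (hd : (Fintype.card V).choose k ≤ 20 * B.card) :
    ((rooted B (wide U)).card : ℝ) ≤ (951 / 1000 : ℝ) * CC V := by
  obtain ⟨h1, h2⟩ := terminal_mass hlo hτ hU hT
  have hsub : rooted B (wide U) ⊆ U := (filter_subset _ _).trans (filter_subset _ _)
  have hm : ∀ g ∈ rooted B (wide U), k < g.card ∧ g.card ≤ Fintype.card V - lo := by
    intro g hg
    rw [rooted, mem_filter, wide, mem_filter] at hg
    have h3 := bot_le_card hg.1.2
    have h4 := hU hg.1.1
    rw [midl, mem_filter] at h4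
    exact ⟨by omega, h4.2.2⟩
  have h3 : ((hits (rooted B (wide U))).card : ℝ) + mass B ≤
      (Fintype.card V).factorial + (1 / 8000 : ℝ) * mass (rooted B (wide U)) := by
    apply hits_add_mass_le hB (fun g hg => (hm g hg).1)
    · intro g hg
      rw [rooted, mem_filter] at hg
      exact hg.2
    · intro g hg
      obtain ⟨h3, h4⟩ := hm g hg
      have h5 : 8000 * (g.card - k) ≤ g.card := by omega
      have h6 : (8000 : ℝ) * ((g.card - k : ℕ) : ℝ) ≤ g.card := by exact_mod_cast h5
      linarith
  have h4 : (mass (rooted B (wide U)) : ℝ) ≤ (hits (rooted B (wide U))).card +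
      multi (rooted B (wide U)) := by exact_mod_cast mass_le _
  have h5 : (multi (rooted B (wide U)) : ℝ) ≤ multi U := by exact_mod_cast multi_mono hsub
  have h6 : (mass (rooted B (wide U)) : ℝ) ≤ mass U := by exact_mod_cast mass_mono hsub
  have h7 : ((Fintype.card V).factorial : ℝ) ≤ 20 * mass B := by
    have e1 := choose_mul_mass_level hB
    have hpos : 0 < (Fintype.card V).choose k := by
      apply Nat.choose_pos
      have := Nat.sub_le (Fintype.card V) (top V)
      unfold bot at hkb
      omega
    have e2 : (Fintype.card V).choose k * (Fintype.card V).factorial ≤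
        (Fintype.card V).choose k * (20 * mass B) := by
      calc _ ≤ (20 * B.card) * (Fintype.card V).factorial := Nat.mul_le_mul_right _ hd
        _ = 20 * (B.card * (Fintype.card V).factorial) := by ring
        _ = _ := by rw [← e1]; ring
    exact_mod_cast Nat.le_of_mul_le_mul_left e2 hpos
  apply card_le_of_mass
  have hf := fact_pos (V := V)
  linarith

theorem rpow_two_mono {x y : ℝ} (h : x ≤ y) : (2 : ℝ) ^ x ≤ (2 : ℝ) ^ y :=
  Real.rpow_le_rpow_of_exponent_le (by norm_num) h

/-- Few small subsets of the container. -/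
theorem card_small_le {Y : Finset (Finset V)} (hY : (Y.card : ℝ) ≤ (1001 / 1000 : ℝ) * CC V) :
    ((Y.powerset.filter (fun H => 5 * H.card ≤ CC V)).card : ℝ) ≤
      (2 : ℝ) ^ ((951 / 1000 : ℝ) * CC V) := by
  have h0 : Y.powerset.filter (fun H => 5 * H.card ≤ CC V) =
      Y.powerset.filter (fun H => H.card ≤ CC V / 5) := by
    ext H; simp only [mem_filter]
    constructor <;> rintro ⟨h1, h2⟩ <;> exact ⟨h1, by omega⟩
  rw [h0]
  have h1 := card_small_subsets Y (CC V / 5) (x := 1 / 4) (by norm_num) (by norm_num)
  have h2 : ((1 : ℝ) + 1 / 4) ^ Y.card ≤ (2 : ℝ) ^ ((1 / 2 : ℝ) * Y.card) := by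
    rw [Real.rpow_mul (by norm_num), Real.rpow_natCast]
    apply pow_le_pow_left₀ (by norm_num)
    rw [← Real.sqrt_eq_rpow]
    apply Real.le_sqrt_of_sq_le
    norm_num
  have h3 : ((1 : ℝ) / 4) ^ (CC V / 5) = (2 : ℝ) ^ (-(2 * ((CC V / 5 : ℕ) : ℝ))) := by
    rw [Real.rpow_neg (by norm_num), Real.rpow_mul (by norm_num), Real.rpow_natCast, one_div,
      inv_pow]
    norm_num
  have h4 : ((Y.powerset.filter (fun H => H.card ≤ CC V / 5)).card : ℝ) ≤
      (2 : ℝ) ^ ((1 / 2 : ℝ) * Y.card) * (2 : ℝ) ^ (2 * ((CC V / 5 : ℕ) : ℝ)) := by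
    have h5 := h1.trans h2
    rw [h3] at h5
    calc _ = (((Y.powerset.filter (fun H => H.card ≤ CC V / 5)).card : ℝ) *
          (2 : ℝ) ^ (-(2 * ((CC V / 5 : ℕ) : ℝ)))) * (2 : ℝ) ^ (2 * ((CC V / 5 : ℕ) : ℝ)) := by
          rw [mul_assoc, ← Real.rpow_add (by norm_num)]; simp
      _ ≤ _ := mul_le_mul_of_nonneg_right h5 (by positivity)
  refine h4.trans ?_
  rw [← Real.rpow_add (by norm_num)]
  apply rpow_two_mono
  have h6 : ((CC V / 5 : ℕ) : ℝ) ≤ (CC V : ℝ) / 5 := by
    have := @Nat.cast_div_le ℝ _ _ _ (CC V) 5
    exact_mod_cast this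
  have h7 : (0 : ℝ) ≤ CC V := Nat.cast_nonneg _
  linarith

/-- The count of the exceptional traces. -/
theorem card_adm_le {lo β : ℕ} (hlo : 0 < lo)
    (hτ : 8000 * ((Fintype.card V - lo) - lo + β) ≤ lo) {U : Finset (Finset V)}
    (hU : U ⊆ midl V lo) (hT : Terminal β U)
    (hn : ((Fintype.card V : ℝ) + 1) ≤ (2 : ℝ) ^ ((1 / 1000 : ℝ) * CC V))
    (low : Finset (Finset V) → ℕ → Finset (Finset V))
    (hlow : ∀ H k, ∀ S ∈ low H k, S.card = k) :
    ((adm lo U low).card : ℝ) ≤ (2 : ℝ) ^ ((499 / 500 : ℝ) * CC V) := by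
  classical
  have hC0 : (0 : ℝ) ≤ CC V := Nat.cast_nonneg _
  by_cases hbig : 500 * U.card ≤ 499 * CC V
  · calc ((adm lo U low).card : ℝ) ≤ (U.powerset.card : ℝ) := by
          exact_mod_cast card_le_card (filter_subset _ _)
      _ = (2 : ℝ) ^ (U.card : ℝ) := by rw [card_powerset, Real.rpow_natCast]; push_cast; rfl
      _ ≤ _ := by
          apply rpow_two_mono
          have : (500 : ℝ) * U.card ≤ 499 * CC V := by exact_mod_cast hbig
          linarith
  · obtain ⟨h1, h2⟩ := terminal_mass hlo hτ hU hT
    have hnar := card_narrow_le h2 (by omega)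
    have hUc : (U.card : ℝ) ≤ (1001 / 1000 : ℝ) * CC V := by
      apply card_le_of_mass
      have hf := fact_pos (V := V)
      linarith
    -- the possible wide parts for a given narrow part
    let D : Finset (Finset V) → Finset ℕ := fun H1 => (range (bot V)).filter
      (fun k => lo ≤ k ∧ (Fintype.card V).choose k ≤ 20 * (low H1 k).card)
    let Z : Finset (Finset V) → Finset (Finset (Finset V)) := fun H1 =>
      (wide U).powerset.filter (fun H => 5 * H.card ≤ CC V) ∪
        (D H1).biUnion (fun k => (rooted (low H1 k) (wide U)).powerset)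
    have hsub : adm lo U low ⊆ ((narrow U).powerset).biUnion (fun H1 => (Z H1).image (fun H2 => H1 ∪ H2)) := by
      intro H hH
      rw [adm, mem_filter, mem_powerset] at hH
      obtain ⟨hHU, hc⟩ := hH
      rw [mem_biUnion]
      refine ⟨narrow H, mem_powerset.2 (filter_subset_filter _ hHU), ?_⟩
      rw [mem_image]
      refine ⟨wide H, ?_, wide_union_narrow H⟩
      have hwU : wide H ⊆ wide U := filter_subset_filter _ hHU
      rw [mem_union]
      rcases hc with hc | hc | ⟨k, hk, hlk, hd, hr⟩
      · exact absurd hc hbig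
      · left; rw [mem_filter, mem_powerset]; exact ⟨hwU, hc⟩
      · right
        rw [mem_biUnion]
        refine ⟨k, ?_, ?_⟩
        · rw [mem_filter]; exact ⟨hk, hlk, hd⟩
        · rw [mem_powerset]
          intro g hg
          rw [← hr] at hg
          rw [rooted, mem_filter] at *
          exact ⟨hwU hg.1, hg.2⟩
    have hwideU : ((wide U).card : ℝ) ≤ (1001 / 1000 : ℝ) * CC V :=
      le_trans (by exact_mod_cast card_le_card (filter_subset _ _)) hUc
    have hZ : ∀ H1 ∈ (narrow U).powerset, (((Z H1).image (fun H2 => H1 ∪ H2)).card : ℝ) ≤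
        ((Fintype.card V : ℝ) + 1) * (2 : ℝ) ^ ((951 / 1000 : ℝ) * CC V) := by
      intro H1 _
      have e1 : (((Z H1).image (fun H2 => H1 ∪ H2)).card : ℝ) ≤ (Z H1).card := by
        exact_mod_cast card_image_le
      have e2 : ((Z H1).card : ℝ) ≤ (((wide U).powerset.filter (fun H => 5 * H.card ≤ CC V)).card : ℝ) +
          (((D H1).biUnion (fun k => (rooted (low H1 k) (wide U)).powerset)).card : ℝ) := by
        exact_mod_cast card_union_le _ _
      have e3 := card_small_le hwideU
      have e4 : (((D H1).biUnion (fun k => (rooted (low H1 k) (wide U)).powerset)).card : ℝ) ≤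
          (D H1).card * (2 : ℝ) ^ ((951 / 1000 : ℝ) * CC V) := by
        apply card_biUnion_le_real
        intro k hk
        rw [mem_filter, mem_range] at hk
        rw [card_powerset]
        push_cast
        rw [← Real.rpow_natCast]
        apply rpow_two_mono
        exact card_rooted_le hlo hτ hU hT hk.2.1 hk.1 (hlow H1 k) hk.2.2
      have e5 : ((D H1).card : ℝ) ≤ Fintype.card V := by
        have : (D H1).card ≤ Fintype.card V := by
          calc (D H1).card ≤ (range (bot V)).card := card_le_card (filter_subset _ _)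
            _ = bot V := card_range _
            _ ≤ _ := Nat.sub_le _ _
        exact_mod_cast this
      have e6 : (D H1).card * (2 : ℝ) ^ ((951 / 1000 : ℝ) * CC V) ≤
          (Fintype.card V : ℝ) * (2 : ℝ) ^ ((951 / 1000 : ℝ) * CC V) :=
        mul_le_mul_of_nonneg_right e5 (by positivity)
      have : ((Fintype.card V : ℝ) + 1) * (2 : ℝ) ^ ((951 / 1000 : ℝ) * CC V) =
          (Fintype.card V : ℝ) * (2 : ℝ) ^ ((951 / 1000 : ℝ) * CC V) +
            (2 : ℝ) ^ ((951 / 1000 : ℝ) * CC V) := by ring
      linarith
    calc ((adm lo U low).card : ℝ) ≤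
          ((((narrow U).powerset).biUnion (fun H1 => (Z H1).image (fun H2 => H1 ∪ H2))).card : ℝ) := by
          exact_mod_cast card_le_card hsub
      _ ≤ ((narrow U).powerset.card : ℝ) *
          (((Fintype.card V : ℝ) + 1) * (2 : ℝ) ^ ((951 / 1000 : ℝ) * CC V)) :=
          card_biUnion_le_real _ _ hZ
      _ = (2 : ℝ) ^ ((narrow U).card : ℝ) *
          (((Fintype.card V : ℝ) + 1) * (2 : ℝ) ^ ((951 / 1000 : ℝ) * CC V)) := by
          rw [card_powerset, Real.rpow_natCast]; push_cast; rfl
      _ ≤ (2 : ℝ) ^ ((1 / 50 : ℝ) * CC V) *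
          ((2 : ℝ) ^ ((1 / 1000 : ℝ) * CC V) * (2 : ℝ) ^ ((951 / 1000 : ℝ) * CC V)) := by
          apply mul_le_mul (rpow_two_mono hnar) _ (by positivity) (by positivity)
          exact mul_le_mul_of_nonneg_right hn (by positivity)
      _ ≤ _ := by
          rw [← Real.rpow_add (by norm_num), ← Real.rpow_add (by norm_num)]
          apply rpow_two_mono
          linarith

end Pool.Agent.N363.UC
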