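import Pool.Agent.N363.UC.Count

/-!
# Decoding the families with small average size
-/

set_option autoImplicit false
set_option linter.unusedSectionVars false

namespace Pool.Agent.N363.UC

open Finset Numbering

variable {V : Type*} [Fintype V] [DecidableEq V]

def genAll (P : Finset (Finset V × V)) (EA H : Finset (Finset V)) : Finset (Finset V) :=
  EA ∪ P.image Prod.fst ∪ H

def recon (b : Bool) (P : Finset (Finset V × V)) (EA H : Finset (Finset V)) :
    Finset (Finset V) :=
  span (genAll P EA H) ∪ (if b then {∅} else ∅)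

def lowF (P : Finset (Finset V × V)) (EA H : Finset (Finset V)) (k : ℕ) : Finset (Finset V) :=
  (span (genAll P EA H)).filter (fun X => X.card = k)

theorem wide_level {H : Finset (Finset V)} {g : Finset V} (hg : g ∈ wide H) :
    bot V ≤ g.card ∧ g.card ≤ top V := by
  rw [wide, mem_filter] at hg
  exact ⟨bot_le_card hg.2, card_le_top hg.2⟩

theorem lowF_eq {P : Finset (Finset V × V)} {EA H : Finset (Finset V)} {k : ℕ} (hk : k < bot V) :
    lowF P EA (narrow H) k = lowF P EA H k := by
  unfold lowF
  rw [span_level, span_level (genAll P EA H)]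
  congr 2
  ext g
  simp only [genAll, mem_filter, mem_union]
  constructor
  · rintro ⟨h1 | h1, h2⟩
    · exact ⟨Or.inl h1, h2⟩
    · exact ⟨Or.inr (mem_filter.1 h1).1, h2⟩
  · rintro ⟨h1 | h1, h2⟩
    · exact ⟨Or.inl h1, h2⟩
    · refine ⟨Or.inr ?_, h2⟩
      rw [narrow, mem_filter]
      refine ⟨h1, fun hw => ?_⟩
      have := bot_le_card hw
      omega

/-- The average size of the members of a family that satisfies the density conditions. -/
theorem sum_pos_of_dense {lo : ℕ} (hlo : 0 < lo) (hlo3 : 499 * Fintype.card V ≤ 1000 * lo)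
    (hlo2 : 2 * lo ≤ Fintype.card V)
    (hn : 1000 ≤ Fintype.card V) (hE : 10000 * (extr V lo).card ≤ CC V) (A : Finset (Finset V))
    (hA : ∀ k, top V < k → k ≤ Fintype.card V - lo →
      (19 / 100 : ℝ) * (Fintype.card V).choose k ≤ (A.filter (fun X => X.card = k)).card)
    (hB : ∀ k, lo ≤ k → k < bot V →
      ((A.filter (fun X => X.card = k)).card : ℝ) ≤ (5 / 100 : ℝ) * (Fintype.card V).choose k) :
    (Fintype.card V : ℝ) * A.card + (1 / 100 : ℝ) * (Fintype.card V * CC V) <
      2 * ∑ X ∈ A, (X.card : ℝ) := by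
  set n := Fintype.card V with hndef
  have hCpos : 0 < CC V := CC_pos
  have htop : top V ≤ n - lo := by
    by_contra hcon
    have h1 := choose_le_extr (V := V) (lo := lo) (k := top V) (by omega)
    have h2 := top_spec (V := V)
    omega
  have hbt : bot V + top V = n := by
    unfold bot
    have := top_le (V := V)
    omega
  have h1 : ∀ k, ((A.filter (fun X => X.card = k)).card : ℝ) ≤ n.choose k := by
    intro k
    have : (A.filter (fun X => X.card = k)).card ≤ n.choose k := by
      rw [hndef, ← Finset.card_univ, ← card_powersetCard]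
      apply card_le_card
      intro X hX
      rw [mem_powersetCard]
      exact ⟨subset_univ _, (mem_filter.1 hX).2⟩
    exact_mod_cast this
  obtain ⟨a, ha⟩ : ∃ a : ℕ → ℝ, ∀ k, a k = ((A.filter (fun X => X.card = k)).card : ℝ) :=
    ⟨_, fun _ => rfl⟩
  have ha0 : ∀ k, 0 ≤ a k := fun k => by rw [ha]; exact Nat.cast_nonneg _
  have ha1 : ∀ k, a k ≤ n.choose k := fun k => by rw [ha]; exact h1 k
  have haA : ∀ k, top V < k → k ≤ n - lo → (19 / 100 : ℝ) * n.choose k ≤ a k := by
    intro k hk1 hk2; rw [ha]; exact hA k hk1 hk2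
  have haB : ∀ k, top V < k → k ≤ n - lo → a (n - k) ≤ (5 / 100 : ℝ) * n.choose k := by
    intro k hk1 hk2
    rw [ha]
    have h2 := hB (n - k) (by omega) (by omega)
    rw [Nat.choose_symm (by omega : k ≤ n)] at h2
    exact h2
  have key := sum_lower n (top V) (n - lo) a ha0 ha1 (half_le_top (V := V)) htop
    (Nat.sub_le _ _) haA haB
  simp only [ha] at key
  -- the sum over the levels
  have hlev : ∑ k ∈ range (n + 1), ((A.filter (fun X => X.card = k)).card : ℝ) *
      (2 * (k : ℝ) - n) = 2 * ∑ X ∈ A, (X.card : ℝ) - n * A.card := by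
    have e1 : ∑ X ∈ A, (2 * (X.card : ℝ) - n) =
        ∑ k ∈ range (n + 1), ∑ X ∈ A.filter (fun X => X.card = k), (2 * (X.card : ℝ) - n) := by
      rw [Finset.sum_fiberwise_of_maps_to]
      intro X _
      rw [mem_range]
      exact Nat.lt_succ_of_le (card_le_univ X)
    have e2 : ∀ k ∈ range (n + 1), ∑ X ∈ A.filter (fun X => X.card = k), (2 * (X.card : ℝ) - n) =
        ((A.filter (fun X => X.card = k)).card : ℝ) * (2 * (k : ℝ) - n) := by
      intro k _
      rw [Finset.sum_congr rfl (g := fun _ => (2 * (k : ℝ) - n))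
        (fun X hX => by rw [(mem_filter.1 hX).2]), sum_const, nsmul_eq_mul]
    rw [← Finset.sum_congr rfl e2, ← e1, sum_sub_distrib, sum_const, nsmul_eq_mul, ← mul_sum]
    ring
  rw [hlev] at key
  -- numerics
  have hC0 : (0 : ℝ) < CC V := by exact_mod_cast hCpos
  have hCC : ((n.choose (n / 2) : ℕ) : ℝ) = CC V := rfl
  have ht1 : (9 : ℝ) * CC V ≤ 10 * n.choose (top V) := by exact_mod_cast top_spec (V := V)
  have ht2 : (lo : ℝ) ≤ (n : ℝ) - top V := by
    have : lo + top V ≤ n := by omega
    have h2 : (lo : ℝ) + top V ≤ n := by exact_mod_cast this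
    linarith
  have hhalf : (n : ℝ) - (n / 2 : ℕ) ≤ (n + 1) / 2 := by
    have h2 : n ≤ 2 * (n / 2) + 1 := by omega
    have h3 : (n : ℝ) ≤ 2 * ((n / 2 : ℕ) : ℝ) + 1 := by exact_mod_cast h2
    linarith
  have hlast : ((n : ℝ) - ((n - lo : ℕ) : ℝ)) * n.choose (n - lo) ≤ n * (CC V / 10000) := by
    have e1 : (((n : ℝ) - ((n - lo : ℕ) : ℝ)) * n.choose (n - lo)) =
        ((n - lo + 1 : ℕ) : ℝ) * n.choose (n - lo + 1) := by
      have h2 := Nat.choose_succ_right_eq n (n - lo)
      have h3 : n - (n - lo) = lo := by omega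
      have h4 : (n.choose (n - lo + 1) : ℝ) * ((n - lo + 1 : ℕ) : ℝ) =
          n.choose (n - lo) * ((n - (n - lo) : ℕ) : ℝ) := by exact_mod_cast h2
      rw [h3] at h4
      have h5 : ((n - lo : ℕ) : ℝ) = n - lo := Nat.cast_sub (by omega)
      rw [mul_comm ((n - lo + 1 : ℕ) : ℝ), h4, h5]
      ring
    rw [e1]
    have h2 := choose_le_extr (V := V) (lo := lo) (k := n - lo + 1) (by omega)
    have h3 : ((n.choose (n - lo + 1) : ℕ) : ℝ) ≤ CC V / 10000 := by
      have : 10000 * (n.choose (n - lo + 1)) ≤ CC V := by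
        have h2' : n.choose (n - lo + 1) ≤ (extr V lo).card := h2
        omega
      have : (10000 : ℝ) * (n.choose (n - lo + 1)) ≤ CC V := by exact_mod_cast this
      linarith
    have h4 : ((n - lo + 1 : ℕ) : ℝ) ≤ n := by
      have : n - lo + 1 ≤ n := by omega
      exact_mod_cast this
    calc _ ≤ (n : ℝ) * n.choose (n - lo + 1) := mul_le_mul_of_nonneg_right h4 (Nat.cast_nonneg _)
      _ ≤ _ := mul_le_mul_of_nonneg_left h3 (Nat.cast_nonneg _)
  have hlo4 : (499 : ℝ) * n ≤ 1000 * lo := by exact_mod_cast hlo3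
  have hn4 : (1000 : ℝ) ≤ n := by exact_mod_cast hn
  have hT : (lo : ℝ) * ((9 / 10 : ℝ) * CC V) ≤ ((n : ℝ) - top V) * n.choose (top V) := by
    apply mul_le_mul ht2 (by linarith) (by positivity)
    linarith [(Nat.cast_nonneg lo : (0 : ℝ) ≤ lo)]
  have hM : ((n : ℝ) - (n / 2 : ℕ)) * n.choose (n / 2) ≤ (n + 1) / 2 * CC V := by
    rw [hCC]
    exact mul_le_mul_of_nonneg_right hhalf hC0.le
  have hloC : (499 / 1000 : ℝ) * n * CC V ≤ lo * CC V :=
    mul_le_mul_of_nonneg_right (by linarith) hC0.le
  have hnC : (1000 : ℝ) * CC V ≤ n * CC V := mul_le_mul_of_nonneg_right hn4 hC0.le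
  linarith [key, hlast, hT, hM, hloC, hnC, hC0]

/-- Every union-closed family with small average size is decoded from its container. -/
theorem decode {lo β : ℕ} (hlo : 0 < lo) (hlo3 : 499 * Fintype.card V ≤ 1000 * lo)
    (hlo2 : 2 * lo ≤ Fintype.card V)
    (hτ : 8000 * ((Fintype.card V - lo) - lo + β) ≤ lo)
    (hn : 1000 ≤ Fintype.card V) (hE : 10000 * (extr V lo).card ≤ CC V)
    {Φ : Finset (Finset V × V) → Finset (Finset V)}
    (hΦ : ∀ (G : Finset (Finset V)) (r : Finset V → V),
        (∀ g ∈ G, r g ∈ g ∧ ∀ S ∈ G, S ⊂ g → r g ∉ S) →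
        ∃ P : Finset (Finset V × V), (∀ p ∈ P, p.1 ∈ G ∧ p.1 ∈ midl V lo ∧ p.2 = r p.1) ∧
          P.card * (β + 1) ≤ (midl V lo).card ∧ Φ P ⊆ midl V lo ∧
          (∀ g ∈ G, g ∈ midl V lo → g ∈ P.image Prod.fst ∨ g ∈ Φ P) ∧ Terminal β (Φ P))
    {A : Finset (Finset V)} (hU : ∀ X ∈ A, ∀ Y ∈ A, X ∪ Y ∈ A)
    (hbad : 2 * ∑ X ∈ A, (X.card : ℝ) ≤ (Fintype.card V : ℝ) * A.card +
      (1 / 100 : ℝ) * (Fintype.card V * CC V)) :
    ∃ b : Bool, ∃ P : Finset (Finset V × V), P.card * (β + 1) ≤ (midl V lo).card ∧
      Φ P ⊆ midl V lo ∧ Terminal β (Φ P) ∧ ∃ EA ⊆ extr V lo, ∃ H ∈ adm lo (Φ P) (lowF P EA),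
        recon b P EA H = A := by
  classical
  have hV : Nonempty V := Fintype.card_pos_iff.1 (by omega)
  set n := Fintype.card V with hndef
  -- roots
  have hroot : ∀ g : Finset V, ∃ x : V, g ∈ gens A → x ∈ g ∧ ∀ Y ∈ A, Y ⊂ g → x ∉ Y := by
    intro g
    by_cases hg : g ∈ gens A
    · obtain ⟨x, hx⟩ := (mem_filter.1 hg).2
      exact ⟨x, fun _ => hx⟩
    · exact ⟨Classical.arbitrary V, fun h => absurd h hg⟩
  choose r hr using hroot
  have hGA : gens A ⊆ A := filter_subset _ _
  obtain ⟨P, hP1, hP2, hP3, hP4, hP5⟩ := hΦ (gens A) r (fun g hg =>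
    ⟨(hr g hg).1, fun S hS hSg => (hr g hg).2 S (hGA hS) hSg⟩)
  set EA := (gens A).filter (fun g => g ∈ extr V lo) with hEA
  set H := (gens A).filter (fun g => g ∈ Φ P) with hH
  have hG : genAll P EA H = gens A := by
    ext g
    rw [genAll, mem_union, mem_union]
    constructor
    · rintro ((h | h) | h)
      · exact (mem_filter.1 h).1
      · rw [mem_image] at h
        obtain ⟨p, hp, rfl⟩ := h
        exact (hP1 p hp).1
      · exact (mem_filter.1 h).1
    · intro hg
      by_cases hgE : g ∈ extr V lo
      · left; left; rw [hEA, mem_filter]; exact ⟨hg, hgE⟩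
      · have hgM : g ∈ midl V lo := by
          rw [extr, mem_filter] at hgE
          rw [midl, mem_filter]
          refine ⟨mem_univ _, ?_⟩
          by_contra hc
          exact hgE ⟨mem_univ _, hc⟩
        rcases hP4 g hg hgM with h | h
        · left; right; exact h
        · right; rw [hH, mem_filter]; exact ⟨hg, h⟩
  have hAspan : ∀ X : Finset V, X.Nonempty → (X ∈ span (gens A) ↔ X ∈ A) := by
    intro X hX
    rw [mem_span_gens hU]
    exact ⟨fun h => h.1, fun h => ⟨h, hX⟩⟩
  refine ⟨decide (∅ ∈ A), P, hP2, hP3, hP5, EA, fun g hg => (mem_filter.1 hg).2, H, ?_, ?_⟩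
  · -- admissible
    have hlowA : ∀ k, 0 < k → k < bot V → lowF P EA (narrow H) k = A.filter (fun X => X.card = k) := by
      intro k hk0 hk
      rw [lowF_eq hk, lowF, hG]
      ext X
      rw [mem_filter, mem_filter]
      constructor
      · rintro ⟨h1, h2⟩
        exact ⟨(hAspan X (card_pos.1 (by omega))).1 h1, h2⟩
      · rintro ⟨h1, h2⟩
        exact ⟨(hAspan X (card_pos.1 (by omega))).2 h1, h2⟩
    by_contra hcon
    rw [adm, mem_filter, not_and] at hcon
    have hc2 := hcon (mem_powerset.2 (fun g hg => (mem_filter.1 hg).2))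
    push Not at hc2
    obtain ⟨_, hc3, hc4⟩ := hc2
    have hwG : ∀ g ∈ wide H, g ∈ gens A := by
      intro g hg
      rw [wide, mem_filter, hH, mem_filter] at hg
      exact hg.1.1
    have htop : top V ≤ n - lo := by
      by_contra hcon
      have h1 := choose_le_extr (V := V) (lo := lo) (k := top V) (by omega)
      have h2 := top_spec (V := V)
      have h3 := CC_pos (V := V)
      omega
    have hbt : bot V + top V = n := by
      unfold bot
      have := top_le (V := V)
      omega
    -- hits
    have hm1 : (multi (wide H) : ℝ) ≤ (1 / 8000 : ℝ) * mass (wide H) := by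
      apply multi_le (lo := bot V) (β := 0) (fun g hg => (wide_level hg).1)
      · intro g hg
        refine ⟨r g, (hr g (hwG g hg)).1, ?_⟩
        rw [Nat.le_zero, card_eq_zero, filter_eq_empty_iff]
        rintro S hS ⟨h1, h2⟩
        exact (hr g (hwG g hg)).2 S (hGA (hwG S hS)) h2 h1
      · intro g hg
        obtain ⟨h1, h2⟩ := wide_level hg
        have h3 : 8000 * (g.card - bot V + 0) ≤ g.card := by omega
        have h4 : (8000 : ℝ) * (((g.card - bot V : ℕ) : ℝ) + (0 : ℕ)) ≤ g.card := by
          exact_mod_cast h3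
        linarith
    have hf := fact_pos (V := V)
    have hhits : (7999 / 8000 / 5 : ℝ) * (Fintype.card V).factorial ≤ (hits (wide H)).card := by
      have h1 : (mass (wide H) : ℝ) ≤ (hits (wide H)).card + multi (wide H) := by
        exact_mod_cast mass_le _
      have h2 : ((wide H).card : ℝ) * (Fintype.card V).factorial ≤ CC V * mass (wide H) := by
        exact_mod_cast card_mul_factorial_le (wide H)
      have h3 : (CC V : ℝ) < 5 * (wide H).card := by exact_mod_cast hc3
      have hC0 : (0 : ℝ) < CC V := by exact_mod_cast CC_pos (V := V)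
      have h4 : (CC V : ℝ) * ((1 / 5 : ℝ) * (Fintype.card V).factorial) ≤ CC V * mass (wide H) := by
        nlinarith
      have h5 := le_of_mul_le_mul_left h4 hC0
      linarith
    have hpos := sum_pos_of_dense hlo hlo3 hlo2 hn hE A ?_ ?_
    · linarith
    · -- high levels
      intro k hk1 hk2
      have hk0 : 0 < k := by omega
      have hkn : k ≤ n := by omega
      have h1 := hits_le_mass (W := wide H) (A := A) (k := k) (b := bot V) (τ := 1 / 8000)
        (fun g hg => (wide_level hg).1) (fun g hg => (wide_level hg).2.trans hk1.le) hkn hk0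
        (by
          intro S hS hSA
          have hSne : S.Nonempty := card_pos.1 (by omega)
          have h2 : S ∉ span (gens A) := fun h => hSA ((hAspan S hSne).1 h)
          rw [mem_span, not_and] at h2
          have h3 := h2 hSne
          push Not at h3
          obtain ⟨x, hx, h4⟩ := h3
          exact ⟨x, hx, fun g hg hgS hxg => h4 g (hwG g hg) hxg hgS⟩)
        (by
          have h3 : 8000 * (k - bot V) ≤ k := by omega
          have h4 : (8000 : ℝ) * ((k - bot V : ℕ) : ℝ) ≤ k := by exact_mod_cast h3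
          linarith) (by norm_num)
      have h2 : ((Fintype.card V).choose k : ℝ) * mass (A.filter (fun X => X.card = k)) =
          (A.filter (fun X => X.card = k)).card * (Fintype.card V).factorial := by
        exact_mod_cast choose_mul_mass_level (k := k) (fun S hS => (mem_filter.1 hS).2)
      have h3 : (19 / 100 : ℝ) * (Fintype.card V).factorial ≤ mass (A.filter (fun X => X.card = k)) := by
        linarith
      have h4 : ((19 / 100 : ℝ) * (Fintype.card V).choose k) * (Fintype.card V).factorial ≤
          (A.filter (fun X => X.card = k)).card * (Fintype.card V).factorial := by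
        rw [← h2]
        calc _ = ((Fintype.card V).choose k : ℝ) * ((19 / 100 : ℝ) * (Fintype.card V).factorial) := by
              ring
          _ ≤ _ := mul_le_mul_of_nonneg_left h3 (Nat.cast_nonneg _)
      exact le_of_mul_le_mul_right h4 hf
    · -- low levels
      intro k hk1 hk2
      have h1 := hc4 k (mem_range.2 hk2) hk1
      rw [hlowA k (by omega) hk2] at h1
      have h2 : ¬ (Fintype.card V).choose k ≤ 20 * (A.filter (fun X => X.card = k)).card := by
        intro h3
        apply h1 h3
        apply filter_true_of_mem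
        intro g hg
        refine ⟨r g, (hr g (hwG g hg)).1, fun Y hY hYg => (hr g (hwG g hg)).2 Y ?_ hYg⟩
        exact (mem_filter.1 hY).1
      have h3 : (20 : ℝ) * (A.filter (fun X => X.card = k)).card ≤ (Fintype.card V).choose k := by
        exact_mod_cast (not_le.1 h2).le
      linarith
  · -- reconstruction
    rw [recon, hG]
    ext X
    rw [mem_union]
    by_cases hX : X.Nonempty
    · rw [hAspan X hX]
      constructor
      · rintro (h | h)
        · exact h
        · split_ifs at h
          · rw [mem_singleton] at h; rw [h] at hX; exact absurd hX (by simp)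
          · simp at h
      · intro h; exact Or.inl h
    · rw [not_nonempty_iff_eq_empty] at hX
      subst hX
      constructor
      · rintro (h | h)
        · rw [mem_span] at h; exact absurd h.1 (by simp)
        · by_contra hA
          simp [hA] at h
      · intro h; right; simp [h]

end Pool.Agent.N363.UC
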