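import Pool.Agent.N363.UC.Main

/-!
# Almost all union-closed families satisfy the union-closed sets conjecture
-/

set_option autoImplicit false
set_option linter.unusedSectionVars false

namespace Pool.Agent.N363.UC

open Finset Filter Topology

theorem le_choose_middle (n : ℕ) : n ≤ n.choose (n / 2) := by
  calc n = n.choose 1 := (Nat.choose_one_right n).symm
    _ ≤ _ := Nat.choose_le_middle 1 n

theorem bad_le : ∃ N : ℕ, ∀ n ≥ N, ∀ bad : Finset (Finset (Finset (Fin n))),
    (∀ A ∈ bad, (∀ X ∈ A, ∀ Y ∈ A, X ∪ Y ∈ A) ∧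
      ∑ X ∈ A, (X.card : ℝ) ≤ ((n : ℝ) / 2 + √(n : ℝ) / 400) * A.card) →
    (bad.card : ℝ) ≤ (2 : ℝ) ^ ((999 / 1000 : ℝ) * (n.choose (n / 2) : ℝ)) := by
  have hev := (ev_log.and (ev_exp.and ev_pow)).and (eventually_ge_atTop 1000000)
  obtain ⟨N, hN⟩ := eventually_atTop.1 hev
  refine ⟨N, fun n hn bad hbad => ?_⟩
  obtain ⟨⟨h1, h2, h3⟩, h4⟩ := hN n hn
  have hV : Fintype.card (Fin n) = n := Fintype.card_fin n
  have hCC : CC (Fin n) = n.choose (n / 2) := by rw [CC, hV]
  have hCn : n ≤ CC (Fin n) := by rw [hCC]; exact le_choose_middle n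
  have hCnR : (n : ℝ) ≤ (CC (Fin n) : ℝ) := by exact_mod_cast hCn
  have h := count_bad (V := Fin n) (lo := n / 2 - n / 100000) (β := n / 50000)
    (by omega) (by rw [hV]; omega) (by rw [hV]; omega) (by rw [hV]; omega) (by rw [hV]; omega)
    (by
      have e1 := extr_bound hV (by omega : 1 ≤ n)
      have e2 := sqrt_bound n (by omega : 1 ≤ n)
      have hnR : (1 : ℝ) ≤ n := by exact_mod_cast (by omega : 1 ≤ n)
      have e3 : √(n : ℝ) ≤ n := by
        rw [Real.sqrt_le_left (by linarith)]
        nlinarith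
      have e4 : Real.exp (1 - (n : ℝ) / 20000000000) =
          Real.exp 1 * Real.exp (-((n : ℝ) / 20000000000)) := by
        rw [← Real.exp_add]; congr 1
      have hC0 : (0 : ℝ) ≤ (n.choose (n / 2) : ℝ) := Nat.cast_nonneg _
      have e5 : (10000 : ℝ) * ((extr (Fin n) (n / 2 - n / 100000)).card : ℝ) ≤ CC (Fin n) := by
        rw [hCC]
        calc (10000 : ℝ) * ((extr (Fin n) (n / 2 - n / 100000)).card : ℝ) ≤
              10000 * (2 * (2 : ℝ) ^ n * Real.exp (1 - (n : ℝ) / 20000000000)) :=
              mul_le_mul_of_nonneg_left e1 (by norm_num)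
          _ ≤ 10000 * (2 * (2 * (n : ℝ) * (n.choose (n / 2) : ℝ)) *
                Real.exp (1 - (n : ℝ) / 20000000000)) := by
              apply mul_le_mul_of_nonneg_left _ (by norm_num)
              apply mul_le_mul_of_nonneg_right _ (Real.exp_pos _).le
              apply mul_le_mul_of_nonneg_left _ (by norm_num)
              refine e2.trans ?_
              apply mul_le_mul_of_nonneg_right _ hC0
              linarith
          _ = (40000 * Real.exp 1 * (n : ℝ) * Real.exp (-((n : ℝ) / 20000000000))) *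
                (n.choose (n / 2) : ℝ) := by rw [e4]; ring
          _ ≤ 1 * (n.choose (n / 2) : ℝ) := mul_le_mul_of_nonneg_right h2 hC0
          _ = _ := one_mul _
      exact_mod_cast e5)
    (by
      rw [hV]
      refine h3.trans (rpow_two_mono ?_)
      linarith)
    (by omega)
    (by
      rw [hV]
      exact fingerprints_bound hV (by omega) h1)
    bad
    (by
      intro A hA
      obtain ⟨e1, e2⟩ := hbad A hA
      refine ⟨e1, ?_⟩
      rw [hV]
      have e3 := sqrt_bound n (by omega : 1 ≤ n)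
      have e4 : (A.card : ℝ) ≤ (2 : ℝ) ^ n := by
        have : A.card ≤ 2 ^ n := by
          calc A.card ≤ (univ : Finset (Finset (Fin n))).card := card_le_card (subset_univ _)
            _ = _ := by rw [card_univ, Fintype.card_finset, hV]
        exact_mod_cast this
      have e5 : √(n : ℝ) * √(n : ℝ) = n := Real.mul_self_sqrt (Nat.cast_nonneg _)
      have e6 : √(n : ℝ) * (A.card : ℝ) ≤ √(n : ℝ) * (2 * √(n : ℝ) * (n.choose (n / 2) : ℝ)) :=
        mul_le_mul_of_nonneg_left (e4.trans e3) (Real.sqrt_nonneg _)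
      have e7 : √(n : ℝ) * (2 * √(n : ℝ) * (n.choose (n / 2) : ℝ)) = 2 * (n * (n.choose (n / 2) : ℝ)) := by
        calc _ = 2 * ((√(n : ℝ) * √(n : ℝ)) * (n.choose (n / 2) : ℝ)) := by ring
          _ = _ := by rw [e5]
      rw [e7] at e6
      rw [hCC]
      linarith)
  rwa [hCC] at h

/-- Union-closed families on `{0, …, n-1}`. -/
def UnionClosed {n : ℕ} (A : Finset (Finset (Fin n))) : Prop := ∀ X ∈ A, ∀ Y ∈ A, X ∪ Y ∈ A

/-- The number of members containing `i`. -/
def freq {n : ℕ} (A : Finset (Finset (Fin n))) (i : Fin n) : ℕ := (A.filter (fun X => i ∈ X)).card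

/-- Two families are isomorphic if a permutation of the ground set maps one to the other. -/
def Iso {n : ℕ} (A B : Finset (Finset (Fin n))) : Prop :=
  ∃ σ : Equiv.Perm (Fin n), B = A.image (fun S => S.image σ)

/-- There are many union-closed families containing all large sets. -/
theorem lower (n : ℕ) :
    2 ^ (n.choose (n / 2)) ≤
      {A : Finset (Finset (Fin n)) | UnionClosed A ∧ ∀ S : Finset (Fin n), n / 2 < S.card → S ∈ A}.ncard := by
  classical
  let big : Finset (Finset (Fin n)) := univ.filter (fun S => n / 2 < S.card)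
  let M : Finset (Finset (Fin n)) := powersetCard (n / 2) univ
  have hinj : Set.InjOn (fun B => B ∪ big) (M.powerset : Set (Finset (Finset (Fin n)))) := by
    intro B hB B' hB' h
    have hB2 := mem_powerset.1 (by exact_mod_cast hB : B ∈ M.powerset)
    have hB2' := mem_powerset.1 (by exact_mod_cast hB' : B' ∈ M.powerset)
    have key : ∀ B ⊆ M, (B ∪ big).filter (fun S => S.card = n / 2) = B := by
      intro B hB
      ext S
      simp only [mem_filter, mem_union, big, mem_univ, true_and]
      constructor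
      · rintro ⟨h1 | h1, h2⟩
        · exact h1
        · omega
      · intro h1
        exact ⟨Or.inl h1, (mem_powersetCard.1 (hB h1)).2⟩
    rw [← key B hB2, ← key B' hB2']
    simp only at h
    rw [h]
  have hcard : (M.powerset.image (fun B => B ∪ big)).card = 2 ^ (n.choose (n / 2)) := by
    rw [card_image_of_injOn hinj, card_powerset, card_powersetCard, card_univ, Fintype.card_fin]
  rw [← hcard, ← Set.ncard_coe_finset]
  apply Set.ncard_le_ncard _ (Set.toFinite _)
  intro A hA
  rw [mem_coe, mem_image] at hA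
  obtain ⟨B, hB, rfl⟩ := hA
  rw [mem_powerset] at hB
  have hbig : ∀ S : Finset (Fin n), n / 2 < S.card → S ∈ B ∪ big := by
    intro S hS
    rw [mem_union]; right
    simp only [big, mem_filter, mem_univ, true_and]; exact hS
  refine ⟨?_, hbig⟩
  intro X hX Y hY
  by_cases h1 : n / 2 < (X ∪ Y).card
  · exact hbig _ h1
  · have hXc : X.card ≤ (X ∪ Y).card := card_le_card subset_union_left
    have hYc : Y.card ≤ (X ∪ Y).card := card_le_card subset_union_right
    have hge : ∀ Z ∈ B ∪ big, n / 2 ≤ Z.card := by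
      intro Z hZ
      rw [mem_union] at hZ
      rcases hZ with h | h
      · exact (mem_powersetCard.1 (hB h)).2.ge
      · simp only [big, mem_filter, mem_univ, true_and] at h; exact h.le
    have e1 : X = X ∪ Y := eq_of_subset_of_card_le subset_union_left (by
      have := hge X hX; omega)
    rw [← e1]; exact hX

/-- The union-closed families whose members have average size at most `n / 2 + √n / 400`. -/
def smallAverage (n : ℕ) : Set (Finset (Finset (Fin n))) :=
  {A | UnionClosed A ∧ ∑ X ∈ A, (X.card : ℝ) ≤ ((n : ℝ) / 2 + √(n : ℝ) / 400) * A.card}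

/-- The union-closed families without an element lying in more than the fraction
`1 / 2 + 1 / (400 √n)` of the members. -/
def noFrequent (n : ℕ) : Set (Finset (Finset (Fin n))) :=
  {A | UnionClosed A ∧ ∀ i, (freq A i : ℝ) ≤ (1 / 2 + 1 / (400 * √(n : ℝ))) * A.card}

theorem ncard_bad_le : ∃ N : ℕ, ∀ n ≥ N, ((smallAverage n).ncard : ℝ) ≤
      (2 : ℝ) ^ ((999 / 1000 : ℝ) * (n.choose (n / 2) : ℝ)) := by
  classical
  obtain ⟨N, hN⟩ := bad_le
  refine ⟨N, fun n hn => ?_⟩
  have h := hN n hn (Finset.univ.filter (fun A : Finset (Finset (Fin n)) => A ∈ smallAverage n))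
    (fun A hA => by
      rw [mem_filter] at hA; exact hA.2)
  rw [← Set.ncard_coe_finset] at h
  simpa using h

theorem sum_freq {n : ℕ} (A : Finset (Finset (Fin n))) : ∑ i, freq A i = ∑ X ∈ A, X.card := by
  unfold freq
  simp only [card_filter]
  rw [sum_comm]
  apply sum_congr rfl
  intro X _
  simp

theorem noFrequent_subset (n : ℕ) : noFrequent n ⊆ smallAverage n := by
  rintro A ⟨h1, h2⟩
  refine ⟨h1, ?_⟩
  have e1 : ∑ X ∈ A, (X.card : ℝ) = ∑ i, (freq A i : ℝ) := by exact_mod_cast (sum_freq A).symm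
  rw [e1]
  calc ∑ i, (freq A i : ℝ) ≤ ∑ _i : Fin n, (1 / 2 + 1 / (400 * √(n : ℝ))) * (A.card : ℝ) :=
        sum_le_sum (fun i _ => h2 i)
    _ = (n * (1 / 2 + 1 / (400 * √(n : ℝ)))) * (A.card : ℝ) := by simp; ring
    _ = ((n : ℝ) / 2 + √(n : ℝ) / 400) * (A.card : ℝ) := by
        congr 1
        rcases Nat.eq_zero_or_pos n with h | h
        · subst h; simp
        · have hpos : 0 < √(n : ℝ) := Real.sqrt_pos.2 (by exact_mod_cast h)
          have hsq : √(n : ℝ) * √(n : ℝ) = n := Real.mul_self_sqrt (Nat.cast_nonneg _)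
          field_simp
          linear_combination (-2 : ℝ) * hsq

theorem ncard_fail_le : ∃ N : ℕ, ∀ n ≥ N, ((noFrequent n).ncard : ℝ) ≤
      (2 : ℝ) ^ ((999 / 1000 : ℝ) * (n.choose (n / 2) : ℝ)) := by
  obtain ⟨N, hN⟩ := ncard_bad_le
  refine ⟨N, fun n hn => le_trans ?_ (hN n hn)⟩
  exact_mod_cast Set.ncard_le_ncard (noFrequent_subset n) (Set.toFinite _)

theorem lower' (n : ℕ) :
    (2 : ℝ) ^ ((n.choose (n / 2) : ℕ) : ℝ) ≤ ({A : Finset (Finset (Fin n)) | UnionClosed A}.ncard : ℝ) := by
  rw [Real.rpow_natCast]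
  have h := lower n
  have h2 : {A : Finset (Finset (Fin n)) | UnionClosed A ∧ ∀ S : Finset (Fin n), n / 2 < S.card → S ∈ A}.ncard
      ≤ {A : Finset (Finset (Fin n)) | UnionClosed A}.ncard :=
    Set.ncard_le_ncard (fun A hA => hA.1) (Set.toFinite _)
  exact_mod_cast h.trans h2

/-- Eventually the middle binomial coefficient is at least `2000 n²`. -/
theorem ev_choose : ∀ᶠ n : ℕ in atTop, (2000 : ℝ) * (n : ℝ) ^ 2 ≤ (n.choose (n / 2) : ℝ) := by
  have h1 : Tendsto (fun n : ℕ => (n : ℝ) ^ 3 / (2 : ℝ) ^ n) atTop (𝓝 0) :=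
    tendsto_pow_const_div_const_pow_of_one_lt 3 (by norm_num)
  have h2 := h1.eventually (eventually_le_nhds (b := (1 / 4000 : ℝ)) (by norm_num))
  filter_upwards [h2, eventually_ge_atTop 1] with n hn hn1
  have hnR : (1 : ℝ) ≤ n := by exact_mod_cast hn1
  have e2 := sqrt_bound n hn1
  have e3 : √(n : ℝ) ≤ n := by
    rw [Real.sqrt_le_left (by linarith)]
    nlinarith
  rw [div_le_iff₀ (by positivity)] at hn
  have hC0 : (0 : ℝ) ≤ (n.choose (n / 2) : ℝ) := Nat.cast_nonneg _
  have e4 : (2 : ℝ) ^ n ≤ 2 * (n : ℝ) * (n.choose (n / 2) : ℝ) := by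
    refine e2.trans ?_
    apply mul_le_mul_of_nonneg_right _ hC0
    linarith
  have e5 : (n : ℝ) * (2000 * (n : ℝ) ^ 2) ≤ n * (n.choose (n / 2) : ℝ) := by nlinarith
  exact le_of_mul_le_mul_left e5 (by linarith)

theorem ratio_tendsto :
    Tendsto (fun n : ℕ => ((noFrequent n).ncard : ℝ) /
      ({A : Finset (Finset (Fin n)) | UnionClosed A}.ncard : ℝ)) atTop (𝓝 0) := by
  obtain ⟨N, hN⟩ := ncard_fail_le
  have h0 : Tendsto (fun n : ℕ => (2 : ℝ) ^ (-((n : ℝ)))) atTop (𝓝 0) := by
    have : Tendsto (fun n : ℕ => ((1 / 2 : ℝ)) ^ n) atTop (𝓝 0) :=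
      tendsto_pow_atTop_nhds_zero_of_lt_one (by norm_num) (by norm_num)
    refine this.congr (fun n => ?_)
    rw [Real.rpow_neg (by norm_num), Real.rpow_natCast, one_div, inv_pow]
  refine tendsto_of_tendsto_of_tendsto_of_le_of_le' tendsto_const_nhds h0 ?_ ?_
  · exact Eventually.of_forall (fun n => by positivity)
  · filter_upwards [eventually_ge_atTop N, ev_choose, eventually_ge_atTop 1] with n hn hc hn1
    have h1 := hN n hn
    have h2 := lower' n
    have hpos : (0 : ℝ) < (2 : ℝ) ^ ((n.choose (n / 2) : ℕ) : ℝ) := by positivity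
    have hnR : (1 : ℝ) ≤ n := by exact_mod_cast hn1
    rw [div_le_iff₀ (hpos.trans_le h2)]
    calc _ ≤ _ := h1
      _ ≤ (2 : ℝ) ^ (-(n : ℝ)) * (2 : ℝ) ^ ((n.choose (n / 2) : ℕ) : ℝ) := by
          rw [← Real.rpow_add (by norm_num)]
          apply rpow_two_mono
          nlinarith
      _ ≤ _ := mul_le_mul_of_nonneg_left h2 (by positivity)

/-- The isomorphism class of a family. -/
def cls {n : ℕ} (A : Finset (Finset (Fin n))) : Set (Finset (Finset (Fin n))) := {B | Iso A B}

theorem self_mem_cls {n : ℕ} (A : Finset (Finset (Fin n))) : A ∈ cls A := by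
  refine ⟨1, ?_⟩
  simp

theorem ncard_cls_le {n : ℕ} (A : Finset (Finset (Fin n))) : (cls A).ncard ≤ n.factorial := by
  classical
  have h1 : cls A ⊆ ((univ : Finset (Equiv.Perm (Fin n))).image
      (fun σ => A.image (fun S => S.image σ)) : Finset (Finset (Finset (Fin n)))) := by
    rintro B ⟨σ, rfl⟩
    rw [mem_coe, mem_image]
    exact ⟨σ, mem_univ _, rfl⟩
  calc (cls A).ncard ≤ ((univ : Finset (Equiv.Perm (Fin n))).image
      (fun σ => A.image (fun S => S.image σ))).card := by
        rw [← Set.ncard_coe_finset]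
        exact Set.ncard_le_ncard h1 (Set.toFinite _)
    _ ≤ (univ : Finset (Equiv.Perm (Fin n))).card := card_image_le
    _ = _ := by rw [card_univ, Fintype.card_perm, Fintype.card_fin]

theorem ncard_le_classes (n : ℕ) :
    {A : Finset (Finset (Fin n)) | UnionClosed A}.ncard ≤
      n.factorial * (cls '' {A : Finset (Finset (Fin n)) | UnionClosed A}).ncard := by
  classical
  let s : Finset (Finset (Finset (Fin n))) := univ.filter (fun A => UnionClosed A)
  have hs : {A : Finset (Finset (Fin n)) | UnionClosed A} = (s : Set (Finset (Finset (Fin n)))) := by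
    ext A; simp [s]
  rw [hs, Set.ncard_coe_finset]
  have himg : cls '' (s : Set (Finset (Finset (Fin n)))) = ((s.image cls : Finset _) : Set _) := by
    rw [coe_image]
  rw [himg, Set.ncard_coe_finset]
  apply card_le_mul_card_image
  intro c _
  have h1 : ((s.filter (fun A => cls A = c)).card) ≤ n.factorial := by
    by_cases hne : (s.filter (fun A => cls A = c)).Nonempty
    · obtain ⟨A, hA⟩ := hne
      rw [mem_filter] at hA
      calc (s.filter (fun A => cls A = c)).card
          = ((s.filter (fun A => cls A = c) : Finset _) : Set (Finset (Finset (Fin n)))).ncard := by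
            rw [Set.ncard_coe_finset]
        _ ≤ (cls A).ncard := by
            apply Set.ncard_le_ncard _ (Set.toFinite _)
            intro B hB
            rw [mem_coe, mem_filter] at hB
            rw [hA.2, ← hB.2]
            exact self_mem_cls B
        _ ≤ _ := ncard_cls_le A
    · rw [not_nonempty_iff_eq_empty] at hne
      rw [hne]; simp
  exact h1

theorem ratio_iso_tendsto :
    Tendsto (fun n : ℕ => ((cls '' noFrequent n).ncard : ℝ) /
      ((cls '' {A : Finset (Finset (Fin n)) | UnionClosed A}).ncard : ℝ)) atTop (𝓝 0) := by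
  obtain ⟨N, hN⟩ := ncard_fail_le
  have h0 : Tendsto (fun n : ℕ => (2 : ℝ) ^ (-((n : ℝ)))) atTop (𝓝 0) := by
    have : Tendsto (fun n : ℕ => ((1 / 2 : ℝ)) ^ n) atTop (𝓝 0) :=
      tendsto_pow_atTop_nhds_zero_of_lt_one (by norm_num) (by norm_num)
    refine this.congr (fun n => ?_)
    rw [Real.rpow_neg (by norm_num), Real.rpow_natCast, one_div, inv_pow]
  refine tendsto_of_tendsto_of_tendsto_of_le_of_le' tendsto_const_nhds h0 ?_ ?_
  · exact Eventually.of_forall (fun n => by positivity)
  · filter_upwards [eventually_ge_atTop N, ev_choose, eventually_ge_atTop 1] with n hn hc hn1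
    have h1 := hN n hn
    have h2 := lower' n
    have hnR : (1 : ℝ) ≤ n := by exact_mod_cast hn1
    have h3 : ((cls '' noFrequent n).ncard : ℝ) ≤ ((noFrequent n).ncard : ℝ) := by
      exact_mod_cast Set.ncard_image_le (Set.toFinite _)
    have h4 : ({A : Finset (Finset (Fin n)) | UnionClosed A}.ncard : ℝ) ≤
        (n.factorial : ℝ) * ((cls '' {A : Finset (Finset (Fin n)) | UnionClosed A}).ncard : ℝ) := by
      exact_mod_cast ncard_le_classes n
    have h5 : (n.factorial : ℝ) ≤ (2 : ℝ) ^ ((n : ℝ) ^ 2) := by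
      have e1 : n.factorial ≤ 2 ^ (n ^ 2) := by
        calc n.factorial ≤ n ^ n := Nat.factorial_le_pow n
          _ ≤ (2 ^ n) ^ n := Nat.pow_le_pow_left (Nat.lt_two_pow_self).le n
          _ = _ := by rw [← pow_mul, sq]
      have e2 : (n.factorial : ℝ) ≤ (2 : ℝ) ^ (n ^ 2) := by exact_mod_cast e1
      rw [← Real.rpow_natCast] at e2
      push_cast at e2
      exact e2
    set c : ℝ := ((cls '' {A : Finset (Finset (Fin n)) | UnionClosed A}).ncard : ℝ) with hc'
    have hc0 : 0 ≤ c := Nat.cast_nonneg _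
    have hpos : (0 : ℝ) < (2 : ℝ) ^ ((n.choose (n / 2) : ℕ) : ℝ) := by positivity
    have h6 : (2 : ℝ) ^ ((n.choose (n / 2) : ℕ) : ℝ) ≤ (2 : ℝ) ^ ((n : ℝ) ^ 2) * c :=
      (h2.trans h4).trans (mul_le_mul_of_nonneg_right h5 hc0)
    have hcpos : 0 < c := by
      by_contra hcon
      have : c = 0 := le_antisymm (not_lt.1 hcon) hc0
      rw [this, mul_zero] at h6
      linarith
    have h7 : (2 : ℝ) ^ (((n.choose (n / 2) : ℕ) : ℝ) - (n : ℝ) ^ 2) ≤ c := by
      rw [Real.rpow_sub (by norm_num), div_le_iff₀ (by positivity), mul_comm]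
      exact h6
    rw [div_le_iff₀ hcpos]
    calc _ ≤ _ := h3.trans h1
      _ ≤ (2 : ℝ) ^ (-(n : ℝ)) * (2 : ℝ) ^ (((n.choose (n / 2) : ℕ) : ℝ) - (n : ℝ) ^ 2) := by
          rw [← Real.rpow_add (by norm_num)]
          apply rpow_two_mono
          nlinarith
      _ ≤ _ := mul_le_mul_of_nonneg_left h7 (by positivity)

end Pool.Agent.N363.UC
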