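import Pool.Agent.N363.UC.Decode

/-!
# The number of union-closed families with small average size
-/

set_option autoImplicit false
set_option linter.unusedSectionVars false

namespace Pool.Agent.N363.UC

open Finset Numbering Filter Topology

section Count

variable {V : Type*} [Fintype V] [DecidableEq V]

theorem count_bad {lo β : ℕ} (hlo : 0 < lo) (hlo3 : 499 * Fintype.card V ≤ 1000 * lo)
    (hlo2 : 2 * lo ≤ Fintype.card V)
    (hτ : 8000 * ((Fintype.card V - lo) - lo + β) ≤ lo)
    (hn : 1000 ≤ Fintype.card V) (hE : 10000 * (extr V lo).card ≤ CC V)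
    (hn1 : ((Fintype.card V : ℝ) + 1) ≤ (2 : ℝ) ^ ((1 / 1000 : ℝ) * CC V))
    (hC : 10000 ≤ CC V)
    (hP : (((univ : Finset (Finset V × V)).powerset.filter
      (fun P => P.card ≤ 2 ^ Fintype.card V / (β + 1))).card : ℝ) ≤
        (2 : ℝ) ^ ((1 / 10000 : ℝ) * CC V))
    (bad : Finset (Finset (Finset V))) (hbad : ∀ A ∈ bad, (∀ X ∈ A, ∀ Y ∈ A, X ∪ Y ∈ A) ∧
      2 * ∑ X ∈ A, (X.card : ℝ) ≤ (Fintype.card V : ℝ) * A.card +
        (1 / 100 : ℝ) * (Fintype.card V * CC V)) :
    (bad.card : ℝ) ≤ (2 : ℝ) ^ ((999 / 1000 : ℝ) * CC V) := by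
  classical
  obtain ⟨Φ, hΦ⟩ := container β (midl V lo)
  let PP : Finset (Finset (Finset V × V)) := (univ : Finset (Finset V × V)).powerset.filter
    (fun P => P.card ≤ 2 ^ Fintype.card V / (β + 1) ∧ Φ P ⊆ midl V lo ∧ Terminal β (Φ P))
  have hsub : bad ⊆ (univ : Finset Bool).biUnion (fun b => PP.biUnion (fun P =>
      (extr V lo).powerset.biUnion (fun EA => (adm lo (Φ P) (lowF P EA)).image
        (recon b P EA)))) := by
    intro A hA
    obtain ⟨hU, hb⟩ := hbad A hA
    obtain ⟨b, P, hP1, hP2, hP3, EA, hEA, H, hH, hrec⟩ :=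
      decode hlo hlo3 hlo2 hτ hn hE hΦ hU hb
    rw [mem_biUnion]
    refine ⟨b, mem_univ _, ?_⟩
    rw [mem_biUnion]
    refine ⟨P, ?_, ?_⟩
    · rw [mem_filter]
      refine ⟨mem_powerset.2 (subset_univ _), ?_, hP2, hP3⟩
      rw [Nat.le_div_iff_mul_le (Nat.succ_pos β)]
      refine hP1.trans ?_
      calc (midl V lo).card ≤ (univ : Finset (Finset V)).card := card_le_card (subset_univ _)
        _ = _ := by rw [card_univ, Fintype.card_finset]
    · rw [mem_biUnion]
      refine ⟨EA, mem_powerset.2 hEA, ?_⟩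
      rw [mem_image]
      exact ⟨H, hH, hrec⟩
  have h1 : ∀ P ∈ PP, ∀ b : Bool, ∀ EA ∈ (extr V lo).powerset,
      ((((adm lo (Φ P) (lowF P EA)).image (recon b P EA)).card : ℕ) : ℝ) ≤
        (2 : ℝ) ^ ((499 / 500 : ℝ) * CC V) := by
    intro P hPP b EA _
    rw [mem_filter] at hPP
    refine le_trans (Nat.cast_le.mpr card_image_le) ?_
    exact card_adm_le hlo hτ hPP.2.2.1 hPP.2.2.2 hn1 (lowF P EA)
      (fun H k S hS => (mem_filter.1 hS).2)
  have hPPc : (PP.card : ℝ) ≤ (2 : ℝ) ^ ((1 / 10000 : ℝ) * CC V) := by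
    refine le_trans ?_ hP
    have : PP.card ≤ ((univ : Finset (Finset V × V)).powerset.filter
      (fun P => P.card ≤ 2 ^ Fintype.card V / (β + 1))).card := by
      apply card_le_card
      intro P hP
      rw [mem_filter] at *
      exact ⟨hP.1, hP.2.1⟩
    exact_mod_cast this
  have hEc : (((extr V lo).powerset.card : ℕ) : ℝ) ≤ (2 : ℝ) ^ ((1 / 10000 : ℝ) * CC V) := by
    rw [card_powerset]
    push_cast
    rw [← Real.rpow_natCast]
    apply rpow_two_mono
    have : (10000 : ℝ) * (extr V lo).card ≤ CC V := by exact_mod_cast hE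
    linarith
  have hCr : (10000 : ℝ) ≤ CC V := by exact_mod_cast hC
  have h2c : (2 : ℝ) ≤ (2 : ℝ) ^ ((1 / 10000 : ℝ) * CC V) := by
    calc (2 : ℝ) = (2 : ℝ) ^ (1 : ℝ) := by rw [Real.rpow_one]
      _ ≤ _ := rpow_two_mono (by linarith)
  have key : (bad.card : ℝ) ≤ (2 : ℝ) * (PP.card * ((((extr V lo).powerset.card : ℕ) : ℝ) *
      (2 : ℝ) ^ ((499 / 500 : ℝ) * CC V))) := by
    calc (bad.card : ℝ) ≤ _ := Nat.cast_le.mpr (card_le_card hsub)
      _ ≤ ((univ : Finset Bool).card : ℝ) * (PP.card * ((((extr V lo).powerset.card : ℕ) : ℝ) *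
          (2 : ℝ) ^ ((499 / 500 : ℝ) * CC V))) := by
          apply card_biUnion_le_real
          intro b _
          apply card_biUnion_le_real
          intro P hP
          apply card_biUnion_le_real
          intro EA hEA
          exact h1 P hP b EA hEA
      _ = _ := by simp
  calc (bad.card : ℝ) ≤ _ := key
    _ ≤ (2 : ℝ) ^ ((1 / 10000 : ℝ) * CC V) * ((2 : ℝ) ^ ((1 / 10000 : ℝ) * CC V) *
        ((2 : ℝ) ^ ((1 / 10000 : ℝ) * CC V) * (2 : ℝ) ^ ((499 / 500 : ℝ) * CC V))) := by
        apply mul_le_mul h2c _ (by positivity) (by positivity)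
        apply mul_le_mul hPPc _ (by positivity) (by positivity)
        exact mul_le_mul_of_nonneg_right hEc (by positivity)
    _ ≤ _ := by
        rw [← Real.rpow_add (by norm_num), ← Real.rpow_add (by norm_num),
          ← Real.rpow_add (by norm_num)]
        apply rpow_two_mono
        linarith

end Count

/-! ### Asymptotics -/

theorem sqrt_bound (n : ℕ) (hn : 1 ≤ n) :
    (2 : ℝ) ^ n ≤ 2 * √(n : ℝ) * (n.choose (n / 2) : ℝ) := by
  have h := middle_lower n hn
  have h1 : (4 : ℝ) ^ n ≤ 4 * n * (n.choose (n / 2) : ℝ) ^ 2 := by exact_mod_cast h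
  have h2 : (4 : ℝ) ^ n = ((2 : ℝ) ^ n) ^ 2 := by
    rw [← pow_mul, mul_comm, pow_mul]; norm_num
  have h3 : 4 * (n : ℝ) * (n.choose (n / 2) : ℝ) ^ 2 = (2 * √(n : ℝ) * (n.choose (n / 2) : ℝ)) ^ 2 := by
    rw [mul_pow, mul_pow, Real.sq_sqrt (Nat.cast_nonneg _)]; ring
  rw [h2, h3] at h1
  exact le_of_sq_le_sq h1 (by positivity)

theorem ev_log : ∀ᶠ n : ℕ in atTop,
    (100000 * Real.log n + 1) * 2 / √(n : ℝ) ≤ Real.log 2 / 10000 := by
  have h1 : Tendsto (fun x : ℝ => Real.log x / √x) atTop (𝓝 0) := by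
    have := (isLittleO_log_rpow_atTop (r := 1 / 2) (by norm_num)).tendsto_div_nhds_zero
    refine this.congr (fun x => ?_)
    rw [Real.sqrt_eq_rpow]
  have h2 : Tendsto (fun x : ℝ => 1 / √x) atTop (𝓝 0) := by
    simp only [one_div]
    exact tendsto_inv_atTop_zero.comp Real.tendsto_sqrt_atTop
  have h3 : Tendsto (fun x : ℝ => (100000 * Real.log x + 1) * 2 / √x) atTop (𝓝 0) := by
    have := (h1.const_mul 200000).add (h2.const_mul 2)
    simp only [mul_zero, add_zero] at this
    refine this.congr (fun x => ?_)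
    ring
  have h4 := (h3.comp tendsto_natCast_atTop_atTop).eventually
    (eventually_le_nhds (b := Real.log 2 / 10000) (by
      have := Real.log_pos (by norm_num : (1 : ℝ) < 2)
      positivity))
  exact h4

theorem ev_exp : ∀ᶠ n : ℕ in atTop,
    40000 * Real.exp 1 * (n : ℝ) * Real.exp (-((n : ℝ) / 20000000000)) ≤ 1 := by
  have h1 : Tendsto (fun x : ℝ => x ^ 1 * Real.exp (-x)) atTop (𝓝 0) :=
    Real.tendsto_pow_mul_exp_neg_atTop_nhds_zero 1
  have h2 : Tendsto (fun x : ℝ => x / 20000000000) atTop atTop :=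
    tendsto_id.atTop_div_const (by norm_num)
  have h3 := (h1.comp h2).const_mul (40000 * Real.exp 1 * 20000000000)
  rw [mul_zero] at h3
  have h4 := (h3.comp tendsto_natCast_atTop_atTop).eventually
    (eventually_le_nhds (b := (1 : ℝ)) (by norm_num))
  filter_upwards [h4] with n hn
  simp only [Function.comp_apply] at hn
  calc _ = 40000 * Real.exp 1 * 20000000000 *
        (((n : ℝ) / 20000000000) ^ 1 * Real.exp (-((n : ℝ) / 20000000000))) := by ring
    _ ≤ 1 := hn

theorem ev_pow : ∀ᶠ n : ℕ in atTop, ((n : ℝ) + 1) ≤ (2 : ℝ) ^ ((1 / 1000 : ℝ) * n) := by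
  have h1 : Tendsto (fun x : ℝ => x ^ 1 * Real.exp (-x)) atTop (𝓝 0) :=
    Real.tendsto_pow_mul_exp_neg_atTop_nhds_zero 1
  have hl : 0 < Real.log 2 / 1000 := by
    have := Real.log_pos (by norm_num : (1 : ℝ) < 2); positivity
  have h2 : Tendsto (fun x : ℝ => x * (Real.log 2 / 1000)) atTop atTop :=
    tendsto_id.atTop_mul_const hl
  have h3 := (h1.comp h2).const_mul (2 / (Real.log 2 / 1000))
  rw [mul_zero] at h3
  have h4 := (h3.comp tendsto_natCast_atTop_atTop).eventually
    (eventually_le_nhds (b := (1 : ℝ)) (by norm_num))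
  filter_upwards [h4, eventually_ge_atTop 1] with n hn hn1
  simp only [Function.comp_apply] at hn
  have hn1' : (1 : ℝ) ≤ n := by exact_mod_cast hn1
  have e1 : 2 / (Real.log 2 / 1000) * (((n : ℝ) * (Real.log 2 / 1000)) ^ 1 *
      Real.exp (-((n : ℝ) * (Real.log 2 / 1000)))) =
      2 * n * Real.exp (-((n : ℝ) * (Real.log 2 / 1000))) := by
    field_simp
  rw [e1] at hn
  have e2 : (2 : ℝ) ^ ((1 / 1000 : ℝ) * n) = Real.exp ((n : ℝ) * (Real.log 2 / 1000)) := by
    rw [Real.rpow_def_of_pos (by norm_num)]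
    congr 1; ring
  rw [e2]
  have e3 : 2 * (n : ℝ) ≤ Real.exp ((n : ℝ) * (Real.log 2 / 1000)) := by
    rw [Real.exp_neg] at hn
    have hpos := Real.exp_pos ((n : ℝ) * (Real.log 2 / 1000))
    have := (mul_inv_le_iff₀ hpos).1 hn
    linarith
  linarith

section Bounds

variable {V : Type*} [Fintype V] [DecidableEq V]

theorem extr_bound {n : ℕ} (hn : Fintype.card V = n) (hn1 : 1 ≤ n) :
    ((extr V (n / 2 - n / 100000)).card : ℝ) ≤
      2 * (2 : ℝ) ^ n * Real.exp (1 - (n : ℝ) / 20000000000) := by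
  set lo := n / 2 - n / 100000 with hlo
  have h0 := card_small_subsets (univ : Finset V) lo (x := 100000 / 100001) (by norm_num)
    (by norm_num)
  rw [card_univ, hn] at h0
  set s := (((univ : Finset V).powerset.filter (fun H => H.card ≤ lo)).card : ℝ) with hs
  have hs0 : 0 ≤ s := Nat.cast_nonneg _
  have h1 : ((extr V lo).card : ℝ) ≤ 2 * s := by
    have hsub : extr V lo ⊆ (univ : Finset V).powerset.filter (fun H => H.card ≤ lo) ∪
        ((univ : Finset V).powerset.filter (fun H => H.card ≤ lo)).image (fun S => Sᶜ) := by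
      intro S hS
      rw [extr, mem_filter, hn] at hS
      rw [mem_union]
      by_cases hc : S.card ≤ lo
      · left; rw [mem_filter]; exact ⟨mem_powerset.2 (subset_univ _), hc⟩
      · right
        rw [mem_image]
        refine ⟨Sᶜ, ?_, compl_compl S⟩
        rw [mem_filter, card_compl, hn]
        refine ⟨mem_powerset.2 (subset_univ _), ?_⟩
        have h2 := hS.2
        push Not at h2
        have h3 := h2 (by omega)
        omega
    have h2 : (extr V lo).card ≤ 2 * ((univ : Finset V).powerset.filter (fun H => H.card ≤ lo)).card := by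
      calc _ ≤ _ := card_le_card hsub
        _ ≤ _ := card_union_le _ _
        _ ≤ _ := by
          have := card_image_le (s := (univ : Finset V).powerset.filter (fun H => H.card ≤ lo))
            (f := fun S => Sᶜ)
          omega
    rw [hs]; exact_mod_cast h2
  have h2 : s ≤ (2 : ℝ) ^ n * Real.exp (1 - (n : ℝ) / 20000000000) := by
    have e1 : ((1 : ℝ) + 100000 / 100001) ^ n ≤ (2 : ℝ) ^ n * Real.exp (-(n / 200002)) := by
      have : ((1 : ℝ) + 100000 / 100001) = 2 * (1 - 1 / 200002) := by norm_num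
      rw [this, mul_pow]
      apply mul_le_mul_of_nonneg_left _ (by positivity)
      have e2 : (1 - 1 / 200002 : ℝ) ≤ Real.exp (-(1 / 200002)) := by
        have := Real.add_one_le_exp (-(1 / 200002 : ℝ))
        linarith
      calc (1 - 1 / 200002 : ℝ) ^ n ≤ (Real.exp (-(1 / 200002))) ^ n :=
            pow_le_pow_left₀ (by norm_num) e2 n
        _ = Real.exp (-(n / 200002)) := by
            rw [← Real.exp_nat_mul]; congr 1; ring
    have e3 : ((100001 : ℝ) / 100000) ^ lo ≤ Real.exp (lo / 100000) := by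
      have e2 : ((100001 : ℝ) / 100000) ≤ Real.exp (1 / 100000) := by
        have := Real.add_one_le_exp (1 / 100000 : ℝ)
        linarith
      calc ((100001 : ℝ) / 100000) ^ lo ≤ (Real.exp (1 / 100000)) ^ lo :=
            pow_le_pow_left₀ (by norm_num) e2 lo
        _ = Real.exp (lo / 100000) := by
            rw [← Real.exp_nat_mul]; congr 1; ring
    have e4 : s = (s * (100000 / 100001 : ℝ) ^ lo) * ((100001 : ℝ) / 100000) ^ lo := by
      rw [mul_assoc, ← mul_pow]; norm_num
    have hloR : (lo : ℝ) ≤ n / 2 - n / 100000 + 1 := by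
      have h3 : n / 100000 ≤ n / 2 := by omega
      rw [hlo, Nat.cast_sub h3]
      have h4 : ((n / 2 : ℕ) : ℝ) ≤ n / 2 := by
        have := @Nat.cast_div_le ℝ _ _ _ n 2
        exact_mod_cast this
      have h5 : (n : ℝ) ≤ 100000 * ((n / 100000 : ℕ) : ℝ) + 100000 := by
        have : n ≤ 100000 * (n / 100000) + 100000 := by omega
        exact_mod_cast this
      linarith
    calc s = (s * (100000 / 100001 : ℝ) ^ lo) * ((100001 : ℝ) / 100000) ^ lo := e4
      _ ≤ ((2 : ℝ) ^ n * Real.exp (-(n / 200002))) * Real.exp (lo / 100000) := by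
          apply mul_le_mul (h0.trans e1) e3 (by positivity) (by positivity)
      _ = (2 : ℝ) ^ n * Real.exp (-(n / 200002) + lo / 100000) := by
          rw [mul_assoc, ← Real.exp_add]
      _ ≤ _ := by
          apply mul_le_mul_of_nonneg_left _ (by positivity)
          apply Real.exp_le_exp.2
          have hnn : (0 : ℝ) ≤ n := Nat.cast_nonneg _
          have : (lo : ℝ) / 100000 ≤ (n / 2 - n / 100000 + 1) / 100000 :=
            div_le_div_of_nonneg_right hloR (by norm_num)
          linarith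
  calc _ ≤ 2 * s := h1
    _ ≤ 2 * ((2 : ℝ) ^ n * Real.exp (1 - (n : ℝ) / 20000000000)) :=
        mul_le_mul_of_nonneg_left h2 (by norm_num)
    _ = _ := by ring

theorem fingerprints_bound {n : ℕ} (hn : Fintype.card V = n) (hn1 : 1 ≤ n)
    (hlog : (100000 * Real.log n + 1) * 2 / √(n : ℝ) ≤ Real.log 2 / 10000) :
    (((univ : Finset (Finset V × V)).powerset.filter
      (fun P => P.card ≤ 2 ^ n / (n / 50000 + 1))).card : ℝ) ≤
        (2 : ℝ) ^ ((1 / 10000 : ℝ) * CC V) := by
  set q := 2 ^ n / (n / 50000 + 1) with hq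
  have hnR : (1 : ℝ) ≤ n := by exact_mod_cast hn1
  have hn0 : (0 : ℝ) < n := by linarith
  have h0 := card_small_subsets (univ : Finset (Finset V × V)) q (x := ((n : ℝ) ^ 2)⁻¹)
    (by positivity) (by apply inv_le_one_of_one_le₀; nlinarith)
  have hcard : (univ : Finset (Finset V × V)).card = 2 ^ n * n := by
    rw [card_univ, Fintype.card_prod, Fintype.card_finset, hn]
  rw [hcard] at h0
  set s := (((univ : Finset (Finset V × V)).powerset.filter (fun P => P.card ≤ q)).card : ℝ) with hs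
  have h1 : s ≤ Real.exp (2 * q * Real.log n + 2 ^ n / n) := by
    have e1 : (1 + ((n : ℝ) ^ 2)⁻¹) ^ (2 ^ n * n) ≤ Real.exp (2 ^ n / n) := by
      have e2 : (1 + ((n : ℝ) ^ 2)⁻¹) ≤ Real.exp (((n : ℝ) ^ 2)⁻¹) := by
        have := Real.add_one_le_exp (((n : ℝ) ^ 2)⁻¹)
        linarith
      calc (1 + ((n : ℝ) ^ 2)⁻¹) ^ (2 ^ n * n) ≤ (Real.exp (((n : ℝ) ^ 2)⁻¹)) ^ (2 ^ n * n) :=
            pow_le_pow_left₀ (by positivity) e2 _
        _ = _ := by
            rw [← Real.exp_nat_mul]; congr 1; push_cast; field_simp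
    have e3 : ((n : ℝ) ^ 2) ^ q = Real.exp (2 * q * Real.log n) := by
      rw [← pow_mul, ← Real.exp_log (by positivity : 0 < (n : ℝ) ^ (2 * q)), Real.log_pow]
      push_cast; rfl
    calc s = (s * (((n : ℝ) ^ 2)⁻¹) ^ q) * ((n : ℝ) ^ 2) ^ q := by
          rw [mul_assoc, ← mul_pow, inv_mul_cancel₀ (by positivity), one_pow, mul_one]
      _ ≤ Real.exp (2 ^ n / n) * Real.exp (2 * q * Real.log n) := by
          apply mul_le_mul (h0.trans e1) e3.le (by positivity) (by positivity)
      _ = _ := by rw [← Real.exp_add]; congr 1; ring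
  refine h1.trans ?_
  rw [Real.rpow_def_of_pos (by norm_num)]
  apply Real.exp_le_exp.2
  have hqR : (q : ℝ) ≤ 50000 * 2 ^ n / n := by
    rw [le_div_iff₀ hn0]
    have h3 : q * (n / 50000 + 1) ≤ 2 ^ n := Nat.div_mul_le_self _ _
    have h4 : n ≤ 50000 * (n / 50000 + 1) := by omega
    have h5 : q * n ≤ 50000 * 2 ^ n := by
      calc q * n ≤ q * (50000 * (n / 50000 + 1)) := Nat.mul_le_mul_left _ h4
        _ = 50000 * (q * (n / 50000 + 1)) := by ring
        _ ≤ _ := Nat.mul_le_mul_left _ h3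
    exact_mod_cast h5
  have hlog0 : 0 ≤ Real.log n := Real.log_nonneg hnR
  have h2n := sqrt_bound n hn1
  have hCC : (CC V : ℝ) = (n.choose (n / 2) : ℝ) := by rw [CC, hn]
  have hC0 : (0 : ℝ) ≤ CC V := Nat.cast_nonneg _
  have hsq : √(n : ℝ) * √(n : ℝ) = n := Real.mul_self_sqrt hn0.le
  have hsqpos : 0 < √(n : ℝ) := Real.sqrt_pos.2 hn0
  calc 2 * (q : ℝ) * Real.log n + 2 ^ n / n ≤
        2 * (50000 * 2 ^ n / n) * Real.log n + 2 ^ n / n := by
        have := mul_le_mul_of_nonneg_right hqR hlog0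
        linarith
    _ = (100000 * Real.log n + 1) / n * 2 ^ n := by ring
    _ ≤ (100000 * Real.log n + 1) / n * (2 * √(n : ℝ) * (n.choose (n / 2) : ℝ)) := by
        apply mul_le_mul_of_nonneg_left h2n (by positivity)
    _ = ((100000 * Real.log n + 1) * 2 / √(n : ℝ)) * CC V := by
        rw [hCC]
        field_simp
        rw [Real.sq_sqrt hn0.le]
    _ ≤ (Real.log 2 / 10000) * CC V := mul_le_mul_of_nonneg_right hlog hC0
    _ = _ := by ring

end Bounds

end Pool.Agent.N363.UC
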